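import Pool.Agent.Lib.H8.PP.Key

set_option autoImplicit false

/-!
No clutter with ideal proper minors has the lines of a projective plane of order at least three as
its smallest members.
-/

namespace Pool.Agent.H8.PP

open Finset

variable {α : Type*} [Fintype α] [DecidableEq α]

variable {C Ls : Finset (Finset α)} {q : ℕ}

omit [Fintype α] in
theorem near_sub (O A B : α) (a b : Finset α) : near Ls O A B a b ⊆ Ls := Finset.filter_subset _ _

omit [Fintype α] in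
theorem far_sub (O A B : α) (a b : Finset α) : far Ls O A B a b ⊆ Ls := Finset.filter_subset _ _

omit [Fintype α] in
theorem disjoint_near_far (O A B : α) (a b : Finset α) :
    Disjoint (near Ls O A B a b) (far Ls O A B a b) :=
  Finset.disjoint_filter_filter_not _ _ _

theorem near_cover (hP : IsPlane Ls q) (hq : 3 ≤ q) {O A B : α} {a b g : Finset α}
    (hT : Tri Ls O A B a b g) (x : α) : ∃ ℓ ∈ near Ls O A B a b, x ∈ ℓ := by
  by_cases hxa : x ∈ a
  · by_cases hxb : x ∈ b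
    · -- then `x = O`
      have hab : a ≠ b := fun h => hT.Ab (h ▸ hT.Aa)
      have hxO : x = O := by
        by_contra hne
        exact hab (hP.line_unique hne hT.ha hT.hb hxa hT.Oa hxb hT.Ob)
      subst hxO
      have hc : 0 < (((Ls.filter (fun ℓ => x ∈ ℓ)).erase a).erase b).card := by
        have h1 := Finset.pred_card_le_card_erase (s := (Ls.filter (fun ℓ => x ∈ ℓ)).erase a)
          (a := b)
        have h2 := Finset.pred_card_le_card_erase (s := Ls.filter (fun ℓ => x ∈ ℓ)) (a := a)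
        rw [hP.card_pencil x] at h2
        omega
      obtain ⟨ℓ, hℓ⟩ := Finset.card_pos.mp hc
      simp only [Finset.mem_erase, Finset.mem_filter] at hℓ
      exact ⟨ℓ, Finset.mem_filter.mpr ⟨hℓ.2.2.1, Or.inr (Or.inr hℓ.2.2.2), hℓ.2.1, hℓ.1⟩,
        hℓ.2.2.2⟩
    · have hne : x ≠ B := fun h => hT.Ba (h ▸ hxa)
      obtain ⟨ℓ, hℓ, hx, hB⟩ := hP.join x B hne
      exact ⟨ℓ, Finset.mem_filter.mpr ⟨hℓ, Or.inr (Or.inl hB), fun h => hT.Ba (h ▸ hB),
        fun h => hxb (h ▸ hx)⟩, hx⟩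
  · have hne : x ≠ A := fun h => hxa (h ▸ hT.Aa)
    obtain ⟨ℓ, hℓ, hx, hA⟩ := hP.join x A hne
    exact ⟨ℓ, Finset.mem_filter.mpr ⟨hℓ, Or.inl hA, fun h => hxa (h ▸ hx),
      fun h => hT.Ab (h ▸ hA)⟩, hx⟩

theorem far_cover (hP : IsPlane Ls q) (hq : 3 ≤ q) {O A B : α} {a b g : Finset α}
    (hT : Tri Ls O A B a b g) (x : α) : ∃ ℓ ∈ far Ls O A B a b, x ∈ ℓ := by
  by_cases hxa : x ∈ a
  · exact ⟨a, Finset.mem_filter.mpr ⟨hT.ha, by simp⟩, hxa⟩
  by_cases hxb : x ∈ b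
  · exact ⟨b, Finset.mem_filter.mpr ⟨hT.hb, by simp⟩, hxb⟩
  by_contra hcon
  push Not at hcon
  have hAx : A ≠ x := fun h => hxa (h ▸ hT.Aa)
  have hBx : B ≠ x := fun h => hxb (h ▸ hT.Bb)
  have hOx : O ≠ x := fun h => hxa (h ▸ hT.Oa)
  have hsub : Ls.filter (fun ℓ => x ∈ ℓ) ⊆
      ((Ls.filter (fun ℓ => x ∈ ℓ)).filter (fun ℓ => A ∈ ℓ)) ∪
      (((Ls.filter (fun ℓ => x ∈ ℓ)).filter (fun ℓ => B ∈ ℓ)) ∪
      ((Ls.filter (fun ℓ => x ∈ ℓ)).filter (fun ℓ => O ∈ ℓ))) := by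
    intro ℓ hℓ
    have hℓ' := Finset.mem_filter.mp hℓ
    by_contra hno
    simp only [Finset.mem_union, Finset.mem_filter] at hno
    push Not at hno
    refine hcon ℓ (Finset.mem_filter.mpr ⟨hℓ'.1, ?_⟩) hℓ'.2
    rintro ⟨h1 | h1 | h1, -, -⟩
    · exact hno.1 hℓ' h1
    · exact hno.2.1 hℓ' h1
    · exact hno.2.2 hℓ' h1
  have h1 := Finset.card_le_card hsub
  have h2 := Finset.card_union_le ((Ls.filter (fun ℓ => x ∈ ℓ)).filter (fun ℓ => A ∈ ℓ))
      (((Ls.filter (fun ℓ => x ∈ ℓ)).filter (fun ℓ => B ∈ ℓ)) ∪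
      ((Ls.filter (fun ℓ => x ∈ ℓ)).filter (fun ℓ => O ∈ ℓ)))
  have h3 := Finset.card_union_le ((Ls.filter (fun ℓ => x ∈ ℓ)).filter (fun ℓ => B ∈ ℓ))
      ((Ls.filter (fun ℓ => x ∈ ℓ)).filter (fun ℓ => O ∈ ℓ))
  rw [hP.card_pencil x] at h1
  rw [hP.pencil_pair x A, if_neg hAx] at h2
  rw [hP.pencil_pair x B, if_neg hBx, hP.pencil_pair x O, if_neg hOx] at h3
  omega

/-- A transversal of `C` tangent to the far lines. -/
theorem Core.exists_S (h : Core C Ls q) (hq : 3 ≤ q) {O A B : α} {a b g : Finset α}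
    (hT : Tri Ls O A B a b g) :
    ∃ S : Finset α, (∀ R ∈ C, (S ∩ R).Nonempty) ∧
      q = 3 ∧ A ∈ S ∧ B ∈ S ∧ S ∩ a = {A} ∧ S ∩ b = {B} ∧ (S ∩ g).card = 2 ∧ S.card = 6 := by
  by_contra hcon
  push Not at hcon
  refine h.key (by omega) (near Ls O A B a b) (far Ls O A B a b) (near_sub _ _ _ _ _)
    (far_sub _ _ _ _ _) (disjoint_near_far _ _ _ _ _) (near_cover h.plane hq hT)
    (far_cover h.plane hq hT) ?_ ?_
  · intro R hR hRL
    exact h.plane.not_tangent_near (by omega) hT (h.blocking (by omega) hR) (h.no_line hR hRL)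
  · intro S hS hno
    by_contra hfar
    push Not at hfar
    have hbl : Blocking Ls S := fun ℓ hℓ => hS ℓ (h.sub hℓ)
    have hres := h.plane.tangent_far hq hT hbl hno (fun ℓ hℓ => by
      have := hfar ℓ hℓ
      omega)
    exact hcon S hS hres.1 hres.2.1 hres.2.2.1 hres.2.2.2.1 hres.2.2.2.2.1 hres.2.2.2.2.2.1
      hres.2.2.2.2.2.2

/-- A member of `C` tangent to the far lines. -/
theorem Core.exists_R (h : Core C Ls q) (hq : 3 ≤ q) {O A B : α} {a b g : Finset α}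
    (hT : Tri Ls O A B a b g) :
    ∃ R ∈ C,
      q = 3 ∧ A ∈ R ∧ B ∈ R ∧ R ∩ a = {A} ∧ R ∩ b = {B} ∧ (R ∩ g).card = 2 ∧ R.card = 6 := by
  by_contra hcon
  push Not at hcon
  refine h.key (by omega) (far Ls O A B a b) (near Ls O A B a b) (far_sub _ _ _ _ _)
    (near_sub _ _ _ _ _) (disjoint_near_far _ _ _ _ _).symm (far_cover h.plane hq hT)
    (near_cover h.plane hq hT) ?_ ?_
  · intro R hR hRL
    by_contra hfar
    push Not at hfar
    have hres := h.plane.tangent_far hq hT (h.blocking (by omega) hR) (h.no_line hR hRL)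
      (fun ℓ hℓ => by
        have := hfar ℓ hℓ
        omega)
    exact hcon R hR hres.1 hres.2.1 hres.2.2.1 hres.2.2.2.1 hres.2.2.2.2.1 hres.2.2.2.2.2.1
      hres.2.2.2.2.2.2
  · intro S hS hno
    exact h.plane.not_tangent_near (by omega) hT (fun ℓ hℓ => hS ℓ (h.sub hℓ)) hno

omit [Fintype α] in
theorem inter_eq_pair {S g : Finset α} {A B : α} (hA : A ∈ S ∩ g) (hB : B ∈ S ∩ g)
    (hAB : A ≠ B) (hc : (S ∩ g).card = 2) {x : α} (hx : x ∈ S ∩ g) : x = A ∨ x = B := by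
  by_contra hno
  push Not at hno
  have h1 : ({A, B, x} : Finset α) ⊆ S ∩ g := by
    intro y hy
    simp only [Finset.mem_insert, Finset.mem_singleton] at hy
    rcases hy with rfl | rfl | rfl <;> assumption
  have h2 := Finset.card_le_card h1
  rw [hc, Finset.card_insert_of_notMem, Finset.card_pair] at h2
  · omega
  · exact fun h => hno.2 h.symm
  · simp only [Finset.mem_insert, Finset.mem_singleton]
    push Not
    exact ⟨hAB, fun h => hno.1 h.symm⟩

/-- There is no such clutter. -/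
theorem Core.false (h : Core C Ls q) (hq : 3 ≤ q) : False := by
  have hP := h.plane
  -- a triangle
  have hn : 0 < Fintype.card α := by rw [hP.card_pts]; positivity
  obtain ⟨O⟩ := Fintype.card_pos_iff.mp hn
  have hg : ∃ g ∈ Ls, O ∉ g := by
    by_contra hcon
    push Not at hcon
    have : Ls.filter (fun ℓ => O ∈ ℓ) = Ls := Finset.filter_true_of_mem hcon
    have h1 := hP.card_pencil O
    rw [this, hP.card_Ls] at h1
    nlinarith
  obtain ⟨g, hg, hOg⟩ := hg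
  -- the pencil at `O`
  have hline : ∀ x ∈ g, ∃ ℓ ∈ Ls, O ∈ ℓ ∧ x ∈ ℓ := fun x hx =>
    hP.join O x (fun h => hOg (h ▸ hx))
  have hgcard := hP.card_line g hg
  -- four points of `g`
  obtain ⟨F, hFg, hF4⟩ := Finset.exists_subset_card_eq (s := g) (n := 4) (by omega)
  obtain ⟨A, B, A', B', hAB, hAA', hAB', hBA', hBB', hA'B', hFeq⟩ := Finset.card_eq_four.mp hF4
  have hAg : A ∈ g := hFg (by rw [hFeq]; simp)
  have hBg : B ∈ g := hFg (by rw [hFeq]; simp)
  have hA'g : A' ∈ g := hFg (by rw [hFeq]; simp)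
  have hB'g : B' ∈ g := hFg (by rw [hFeq]; simp)
  obtain ⟨a, ha, hOa, hAa⟩ := hline A hAg
  obtain ⟨b, hb, hOb, hBb⟩ := hline B hBg
  obtain ⟨c, hc, hOc, hA'c⟩ := hline A' hA'g
  obtain ⟨d, hd, hOd, hB'd⟩ := hline B' hB'g
  -- a line through `O` meets `g` in one point only
  have hsep : ∀ m ∈ Ls, O ∈ m → ∀ x ∈ g, ∀ y ∈ g, x ∈ m → y ∈ m → x = y := by
    intro m hm hOm x hx y hy hxm hym
    by_contra hne
    have := hP.line_unique hne hm hg hxm hym hx hy
    exact hOg (this ▸ hOm)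
  have hT : Tri Ls O A B a b g := ⟨ha, hb, hg, hOa, hAa, hOb, hBb, hAg, hBg, hOg,
    fun h => hAB (hsep b hb hOb A hAg B hBg h hBb),
    fun h => hAB (hsep a ha hOa A hAg B hBg hAa h)⟩
  have hT' : Tri Ls O A' B' c d g := ⟨hc, hd, hg, hOc, hA'c, hOd, hB'd, hA'g, hB'g, hOg,
    fun h => hA'B' (hsep d hd hOd A' hA'g B' hB'g h hB'd),
    fun h => hA'B' (hsep c hc hOc A' hA'g B' hB'g hA'c h)⟩
  obtain ⟨S, hS, hq3, hAS, hBS, hSa, hSb, hSg, -⟩ := h.exists_S hq hT
  obtain ⟨R, hR, -, hAR, hBR, hRc, hRd, hRg, -⟩ := h.exists_R hq hT'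
  -- all lines through `O` are among `a, b, c, d`
  have hac : a ≠ c := fun h => hAA' (hsep a ha hOa A hAg A' hA'g hAa (h ▸ hA'c))
  have had : a ≠ d := fun h => hAB' (hsep a ha hOa A hAg B' hB'g hAa (h ▸ hB'd))
  have hbc : b ≠ c := fun h => hBA' (hsep b hb hOb B hBg A' hA'g hBb (h ▸ hA'c))
  have hbd : b ≠ d := fun h => hBB' (hsep b hb hOb B hBg B' hB'g hBb (h ▸ hB'd))
  have hab : a ≠ b := fun h => hT.Ab (h ▸ hAa)
  have hcd : c ≠ d := fun h => hT'.Ab (h ▸ hA'c)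
  have hall : ({a, b, c, d} : Finset (Finset α)) = Ls.filter (fun ℓ => O ∈ ℓ) := by
    apply Finset.eq_of_subset_of_card_le
    · intro m hm
      simp only [Finset.mem_insert, Finset.mem_singleton] at hm
      rcases hm with rfl | rfl | rfl | rfl
      · exact Finset.mem_filter.mpr ⟨ha, hOa⟩
      · exact Finset.mem_filter.mpr ⟨hb, hOb⟩
      · exact Finset.mem_filter.mpr ⟨hc, hOc⟩
      · exact Finset.mem_filter.mpr ⟨hd, hOd⟩
    · rw [hP.card_pencil O, hq3, Finset.card_insert_of_notMem, Finset.card_insert_of_notMem,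
        Finset.card_pair hcd]
      · simp [hbc, hbd]
      · simp [hab, hac, had]
  obtain ⟨x, hx⟩ := hS R hR
  have hx' := Finset.mem_inter.mp hx
  have hOS : O ∉ S := by
    intro hO
    have : O ∈ S ∩ a := Finset.mem_inter.mpr ⟨hO, hOa⟩
    rw [hSa, Finset.mem_singleton] at this
    exact hOg (this ▸ hAg)
  have hxO : O ≠ x := fun h => hOS (h ▸ hx'.1)
  obtain ⟨m, hm, hOm, hxm⟩ := hP.join O x hxO
  have hmem : m ∈ ({a, b, c, d} : Finset (Finset α)) := by
    rw [hall]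
    exact Finset.mem_filter.mpr ⟨hm, hOm⟩
  have hSg' : ∀ y, y ∈ S ∩ g → y = A ∨ y = B := fun y hy =>
    inter_eq_pair (Finset.mem_inter.mpr ⟨hAS, hAg⟩) (Finset.mem_inter.mpr ⟨hBS, hBg⟩) hAB hSg hy
  have hRg' : ∀ y, y ∈ R ∩ g → y = A' ∨ y = B' := fun y hy =>
    inter_eq_pair (Finset.mem_inter.mpr ⟨hAR, hA'g⟩) (Finset.mem_inter.mpr ⟨hBR, hB'g⟩)
      hA'B' hRg hy
  simp only [Finset.mem_insert, Finset.mem_singleton] at hmem
  rcases hmem with rfl | rfl | rfl | rfl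
  · have h1 : x ∈ S ∩ m := Finset.mem_inter.mpr ⟨hx'.1, hxm⟩
    rw [hSa, Finset.mem_singleton] at h1
    subst h1
    rcases hRg' x (Finset.mem_inter.mpr ⟨hx'.2, hAg⟩) with h2 | h2
    · exact hAA' h2
    · exact hAB' h2
  · have h1 : x ∈ S ∩ m := Finset.mem_inter.mpr ⟨hx'.1, hxm⟩
    rw [hSb, Finset.mem_singleton] at h1
    subst h1
    rcases hRg' x (Finset.mem_inter.mpr ⟨hx'.2, hBg⟩) with h2 | h2
    · exact hBA' h2
    · exact hBB' h2
  · have h1 : x ∈ R ∩ m := Finset.mem_inter.mpr ⟨hx'.2, hxm⟩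
    rw [hRc, Finset.mem_singleton] at h1
    subst h1
    rcases hSg' x (Finset.mem_inter.mpr ⟨hx'.1, hA'g⟩) with h2 | h2
    · exact hAA' h2.symm
    · exact hBA' h2.symm
  · have h1 : x ∈ R ∩ m := Finset.mem_inter.mpr ⟨hx'.2, hxm⟩
    rw [hRd, Finset.mem_singleton] at h1
    subst h1
    rcases hSg' x (Finset.mem_inter.mpr ⟨hx'.1, hB'g⟩) with h2 | h2
    · exact hAB' h2.symm
    · exact hBB' h2.symm

/-- Plane structure from the incidence hypotheses. -/
theorem isPlane_of_incidence (Ls : Finset (Finset α)) (q : ℕ)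
    (hcard : ∀ ℓ ∈ Ls, ℓ.card = q + 1)
    (hjoin : ∀ x y : α, x ≠ y → ∃! ℓ : Finset α, ℓ ∈ Ls ∧ x ∈ ℓ ∧ y ∈ ℓ)
    (hmeet : ∀ ℓ ∈ Ls, ∀ m ∈ Ls, ℓ ≠ m → ∃! p : α, p ∈ ℓ ∧ p ∈ m)
    (hF : ∃ F : Finset α, F.card = 4 ∧ ∀ ℓ ∈ Ls, (F ∩ ℓ).card ≤ 2) : IsPlane Ls q := by
  have hmeet1 : ∀ ℓ ∈ Ls, ∀ m ∈ Ls, ℓ ≠ m → (ℓ ∩ m).card = 1 := by
    intro ℓ hℓ m hm hne
    obtain ⟨p, hp, hpu⟩ := hmeet ℓ hℓ m hm hne
    rw [Finset.card_eq_one]
    refine ⟨p, ?_⟩
    ext y
    simp only [Finset.mem_inter, Finset.mem_singleton]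
    constructor
    · intro hy
      exact hpu y hy
    · rintro rfl
      exact hp
  -- the number of lines through two points
  have hpair : ∀ x y : α, ((Ls.filter (fun ℓ => x ∈ ℓ)).filter (fun ℓ => y ∈ ℓ)).card
      = if y = x then (Ls.filter (fun ℓ => x ∈ ℓ)).card else 1 := by
    intro x y
    split_ifs with h
    · subst h
      rw [Finset.filter_filter]
      simp only [and_self]
    · obtain ⟨ℓ, hℓ, hu⟩ := hjoin x y (fun h' => h h'.symm)
      rw [Finset.card_eq_one]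
      refine ⟨ℓ, ?_⟩
      ext m
      simp only [Finset.mem_filter, Finset.mem_singleton]
      constructor
      · rintro ⟨⟨hm, hxm⟩, hym⟩
        exact hu m ⟨hm, hxm, hym⟩
      · rintro rfl
        exact ⟨⟨hℓ.1, hℓ.2.1⟩, hℓ.2.2⟩
  -- a line missing a given point
  have hmissing : ∀ x : α, ∃ ℓ ∈ Ls, x ∉ ℓ := by
    intro x
    by_contra hcon
    push Not at hcon
    obtain ⟨F, hF4, hFl⟩ := hF
    have h3 : 3 ≤ (F.erase x).card := by
      have := Finset.pred_card_le_card_erase (s := F) (a := x)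
      omega
    obtain ⟨F', hF'sub, hF'3⟩ := Finset.exists_subset_card_eq h3
    obtain ⟨f1, f2, f3, h12, h13, h23, hF'eq⟩ := Finset.card_eq_three.mp hF'3
    have hf1 : f1 ∈ F.erase x := hF'sub (by rw [hF'eq]; simp)
    have hf2 : f2 ∈ F.erase x := hF'sub (by rw [hF'eq]; simp)
    have hf3 : f3 ∈ F.erase x := hF'sub (by rw [hF'eq]; simp)
    obtain ⟨m, hm, -⟩ := hjoin f1 f2 h12
    obtain ⟨m', hm', -⟩ := hjoin f1 f3 h13
    have hxm := hcon m hm.1
    have hxm' := hcon m' hm'.1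
    have hf1x : f1 ≠ x := (Finset.mem_erase.mp hf1).1
    obtain ⟨ℓ, -, hu⟩ := hjoin f1 x hf1x
    have e1 := hu m ⟨hm.1, hm.2.1, hxm⟩
    have e2 := hu m' ⟨hm'.1, hm'.2.1, hxm'⟩
    have e3 : m' = m := by rw [e1, e2]
    rw [e3] at hm'
    have h4 : ({f1, f2, f3} : Finset α) ⊆ F ∩ m := by
      intro y hy
      simp only [Finset.mem_insert, Finset.mem_singleton] at hy
      rcases hy with rfl | rfl | rfl
      · exact Finset.mem_inter.mpr ⟨(Finset.mem_erase.mp hf1).2, hm.2.1⟩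
      · exact Finset.mem_inter.mpr ⟨(Finset.mem_erase.mp hf2).2, hm.2.2⟩
      · exact Finset.mem_inter.mpr ⟨(Finset.mem_erase.mp hf3).2, hm'.2.2⟩
    have h5 := Finset.card_le_card h4
    have h6 : ({f1, f2, f3} : Finset α).card = 3 := Finset.card_eq_three.mpr
      ⟨f1, f2, f3, h12, h13, h23, rfl⟩
    have h7 := hFl m hm.1
    omega
  -- intersection numbers over a pencil
  have hsum : ∀ (S : Finset α) (x : α), ∑ ℓ ∈ Ls.filter (fun ℓ => x ∈ ℓ), (S ∩ ℓ).card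
      = ∑ y ∈ S, if y = x then (Ls.filter (fun ℓ => x ∈ ℓ)).card else 1 := by
    intro S x
    have h1 : ∀ ℓ ∈ Ls.filter (fun ℓ => x ∈ ℓ), (S ∩ ℓ).card
        = ∑ y ∈ S, if y ∈ ℓ then 1 else 0 := by
      intro ℓ _
      rw [Finset.sum_boole, Finset.filter_mem_eq_inter]
      simp
    rw [Finset.sum_congr rfl h1, Finset.sum_comm]
    refine Finset.sum_congr rfl fun y _ => ?_
    rw [Finset.sum_boole]
    simp only [Nat.cast_id]
    exact hpair x y
  have hpencil : ∀ x, (Ls.filter (fun ℓ => x ∈ ℓ)).card = q + 1 := by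
    intro x
    obtain ⟨ℓ0, hℓ0, hx⟩ := hmissing x
    have h1 := hsum ℓ0 x
    have h2 : ∑ ℓ ∈ Ls.filter (fun ℓ => x ∈ ℓ), (ℓ0 ∩ ℓ).card
        = (Ls.filter (fun ℓ => x ∈ ℓ)).card := by
      rw [Finset.card_eq_sum_ones]
      refine Finset.sum_congr rfl fun ℓ hℓ => ?_
      have hℓ' := Finset.mem_filter.mp hℓ
      exact hmeet1 ℓ0 hℓ0 ℓ hℓ'.1 (fun h => hx (h ▸ hℓ'.2))
    have h3 : (∑ y ∈ ℓ0, if y = x then (Ls.filter (fun ℓ => x ∈ ℓ)).card else 1) = ℓ0.card := by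
      rw [Finset.card_eq_sum_ones ℓ0]
      refine Finset.sum_congr rfl fun y hy => ?_
      have hyx : y ≠ x := fun h' => hx (h' ▸ hy)
      rw [if_neg hyx]
    rw [h2, h3, hcard ℓ0 hℓ0] at h1
    exact h1
  have hpts : Fintype.card α = q ^ 2 + q + 1 := by
    obtain ⟨F, hF4, -⟩ := hF
    have hFne : F.Nonempty := by rw [← Finset.card_pos]; omega
    obtain ⟨x, -⟩ := hFne
    have h1 := hsum Finset.univ x
    have h2 : ∑ ℓ ∈ Ls.filter (fun ℓ => x ∈ ℓ), ((Finset.univ : Finset α) ∩ ℓ).card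
        = (q + 1) * (q + 1) := by
      have : ∀ ℓ ∈ Ls.filter (fun ℓ => x ∈ ℓ), ((Finset.univ : Finset α) ∩ ℓ).card = q + 1 := by
        intro ℓ hℓ
        rw [Finset.univ_inter, hcard ℓ (Finset.mem_filter.mp hℓ).1]
      rw [Finset.sum_congr rfl this, Finset.sum_const, hpencil x]
      simp
    have h3 : (∑ y ∈ (Finset.univ : Finset α),
        if y = x then (Ls.filter (fun ℓ => x ∈ ℓ)).card else 1)
        = q + Fintype.card α := by
      have : ∀ y ∈ (Finset.univ : Finset α),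
          (if y = x then (Ls.filter (fun ℓ => x ∈ ℓ)).card else 1)
          = (if y = x then q else 0) + 1 := by
        intro y _
        rw [hpencil x]
        split_ifs <;> rfl
      rw [Finset.sum_congr rfl this, Finset.sum_add_distrib]
      simp
    rw [h2, h3] at h1
    nlinarith
  have hLs : Ls.card = q ^ 2 + q + 1 := by
    have h1 : ∑ ℓ ∈ Ls, ℓ.card = ∑ y : α, (Ls.filter (fun ℓ => y ∈ ℓ)).card := by
      have : ∀ ℓ ∈ Ls, ℓ.card = ∑ y : α, if y ∈ ℓ then 1 else 0 := by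
        intro ℓ _
        rw [Finset.sum_boole]
        simp
      rw [Finset.sum_congr rfl this, Finset.sum_comm]
      refine Finset.sum_congr rfl fun y _ => ?_
      rw [Finset.sum_boole]
      simp
    have h2 : ∑ ℓ ∈ Ls, ℓ.card = Ls.card * (q + 1) := by
      rw [Finset.sum_congr rfl hcard, Finset.sum_const, smul_eq_mul]
    have h3 : ∑ y : α, (Ls.filter (fun ℓ => y ∈ ℓ)).card = (q ^ 2 + q + 1) * (q + 1) := by
      rw [Finset.sum_congr rfl (fun (y : α) (_ : y ∈ Finset.univ) => hpencil y),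
        Finset.sum_const, smul_eq_mul, Finset.card_univ, hpts]
    rw [h2, h3] at h1
    exact Nat.eq_of_mul_eq_mul_right (Nat.succ_pos q) h1
  exact ⟨hcard, hpencil, fun x y hxy => (hjoin x y hxy).exists, hmeet1, hpts, hLs⟩

end Pool.Agent.H8.PP
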