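import Mathlib

set_option autoImplicit false

/-!
Finite projective planes given by their finset of lines, and the two facts on blocking sets which
are tangent to many lines.
-/

namespace Pool.Agent.H8.PP

open Finset

variable {α : Type*} [Fintype α] [DecidableEq α]

/-- `Ls` is the set of lines of a projective plane of order `q` on the point set `α`. -/
structure IsPlane (Ls : Finset (Finset α)) (q : ℕ) : Prop where
  card_line : ∀ ℓ ∈ Ls, ℓ.card = q + 1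
  card_pencil : ∀ x, (Ls.filter (fun ℓ => x ∈ ℓ)).card = q + 1
  join : ∀ x y, x ≠ y → ∃ ℓ ∈ Ls, x ∈ ℓ ∧ y ∈ ℓ
  meet : ∀ ℓ ∈ Ls, ∀ m ∈ Ls, ℓ ≠ m → (ℓ ∩ m).card = 1
  card_pts : Fintype.card α = q ^ 2 + q + 1
  card_Ls : Ls.card = q ^ 2 + q + 1

variable {Ls : Finset (Finset α)} {q : ℕ}

theorem IsPlane.line_unique (hP : IsPlane Ls q) {x y : α} (hxy : x ≠ y) {ℓ m : Finset α}
    (hℓ : ℓ ∈ Ls) (hm : m ∈ Ls) (hx : x ∈ ℓ) (hy : y ∈ ℓ) (hx' : x ∈ m) (hy' : y ∈ m) :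
    ℓ = m := by
  by_contra hne
  have h := hP.meet ℓ hℓ m hm hne
  have : 1 < (ℓ ∩ m).card := Finset.one_lt_card.mpr
    ⟨x, by simp [hx, hx'], y, by simp [hy, hy'], hxy⟩
  omega

theorem IsPlane.pencil_pair (hP : IsPlane Ls q) (x y : α) :
    ((Ls.filter (fun ℓ => x ∈ ℓ)).filter (fun ℓ => y ∈ ℓ)).card
      = if y = x then q + 1 else 1 := by
  split_ifs with h
  · subst h
    rw [Finset.filter_filter]
    simp only [and_self]
    exact hP.card_pencil y
  · obtain ⟨ℓ, hℓ, hxℓ, hyℓ⟩ := hP.join x y (fun h' => h h'.symm)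
    rw [Finset.card_eq_one]
    refine ⟨ℓ, ?_⟩
    ext m
    simp only [Finset.mem_filter, Finset.mem_singleton]
    constructor
    · rintro ⟨⟨hm, hxm⟩, hym⟩
      exact hP.line_unique (fun h' => h h'.symm) hm hℓ hxm hym hxℓ hyℓ
    · rintro rfl
      exact ⟨⟨hℓ, hxℓ⟩, hyℓ⟩

/-- Sum of the intersection numbers over the lines through `x`. -/
theorem IsPlane.sum_pencil (hP : IsPlane Ls q) (S : Finset α) (x : α) :
    ∑ ℓ ∈ Ls.filter (fun ℓ => x ∈ ℓ), (S ∩ ℓ).card = S.card + if x ∈ S then q else 0 := by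
  have h1 : ∀ ℓ ∈ Ls.filter (fun ℓ => x ∈ ℓ), (S ∩ ℓ).card = ∑ y ∈ S, if y ∈ ℓ then 1 else 0 := by
    intro ℓ _
    rw [Finset.sum_boole, Finset.filter_mem_eq_inter]
    simp
  rw [Finset.sum_congr rfl h1, Finset.sum_comm]
  have h2 : ∀ y ∈ S, (∑ ℓ ∈ Ls.filter (fun ℓ => x ∈ ℓ), if y ∈ ℓ then 1 else 0)
      = 1 + if y = x then q else 0 := by
    intro y _
    rw [Finset.sum_boole]
    simp only [Nat.cast_id]
    rw [hP.pencil_pair x y]
    split_ifs <;> omega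
  rw [Finset.sum_congr rfl h2, Finset.sum_add_distrib]
  simp [Finset.sum_ite_eq']

/-- Sum of the intersection numbers over all lines. -/
theorem IsPlane.sum_all (hP : IsPlane Ls q) (S : Finset α) :
    ∑ ℓ ∈ Ls, (S ∩ ℓ).card = (q + 1) * S.card := by
  have h1 : ∀ ℓ ∈ Ls, (S ∩ ℓ).card = ∑ y ∈ S, if y ∈ ℓ then 1 else 0 := by
    intro ℓ _
    rw [Finset.sum_boole, Finset.filter_mem_eq_inter]
    simp
  rw [Finset.sum_congr rfl h1, Finset.sum_comm]
  have h2 : ∀ y ∈ S, (∑ ℓ ∈ Ls, if y ∈ ℓ then 1 else 0) = q + 1 := by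
    intro y _
    rw [Finset.sum_boole]
    simp only [Nat.cast_id]
    exact hP.card_pencil y
  rw [Finset.sum_congr rfl h2]
  simp [mul_comm]

/-- Integer valued excess of a set on a line. -/
def zz (S ℓ : Finset α) : ℤ := ((S ∩ ℓ).card : ℤ) - 1

theorem IsPlane.zsum_pencil (hP : IsPlane Ls q) (S : Finset α) (x : α) :
    ∑ ℓ ∈ Ls.filter (fun ℓ => x ∈ ℓ), zz S ℓ
      = (S.card : ℤ) - (q + 1) + if x ∈ S then (q : ℤ) else 0 := by
  have h := hP.sum_pencil S x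
  simp only [zz]
  rw [Finset.sum_sub_distrib]
  have h2 : ((∑ ℓ ∈ Ls.filter (fun ℓ => x ∈ ℓ), (S ∩ ℓ).card : ℕ) : ℤ)
      = ∑ ℓ ∈ Ls.filter (fun ℓ => x ∈ ℓ), ((S ∩ ℓ).card : ℤ) := by push_cast; rfl
  rw [← h2, h, Finset.sum_const, hP.card_pencil x]
  split_ifs <;> push_cast <;> simp <;> ring

theorem IsPlane.zsum_all (hP : IsPlane Ls q) (S : Finset α) :
    ∑ ℓ ∈ Ls, zz S ℓ = (q : ℤ) + ((S.card : ℤ) - (q + 1)) * (q + 1) := by
  have h := hP.sum_all S
  simp only [zz]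
  rw [Finset.sum_sub_distrib]
  have h2 : ((∑ ℓ ∈ Ls, (S ∩ ℓ).card : ℕ) : ℤ) = ∑ ℓ ∈ Ls, ((S ∩ ℓ).card : ℤ) := by
    push_cast; rfl
  rw [← h2, h, Finset.sum_const, hP.card_Ls]
  push_cast
  simp
  ring

/-- A set of points meeting every line. -/
def Blocking (Ls : Finset (Finset α)) (S : Finset α) : Prop := ∀ ℓ ∈ Ls, (S ∩ ℓ).Nonempty

omit [Fintype α] in
theorem Blocking.zz_nonneg {S : Finset α} (hS : Blocking Ls S) {ℓ : Finset α} (hℓ : ℓ ∈ Ls) :
    0 ≤ zz S ℓ := by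
  have := Finset.card_pos.mpr (hS ℓ hℓ)
  simp only [zz]
  omega

/-- A blocking set without full lines has at least `q + 3` points. -/
theorem IsPlane.two_le_excess (hP : IsPlane Ls q) (hq : 1 ≤ q) {S : Finset α}
    (hS : Blocking Ls S) (hno : ∀ ℓ ∈ Ls, ¬ ℓ ⊆ S) : q + 3 ≤ S.card := by
  by_contra hlt
  have hlt' : (S.card : ℤ) - (q + 1) ≤ 1 := by
    push Not at hlt
    have : (S.card : ℤ) < q + 3 := by exact_mod_cast hlt
    linarith
  set e : ℤ := (S.card : ℤ) - (q + 1) with he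
  -- each line has excess at most `e`
  have hze : ∀ ℓ ∈ Ls, zz S ℓ ≤ e := by
    intro ℓ hℓ
    obtain ⟨x, hxℓ, hxS⟩ := Finset.not_subset.mp (hno ℓ hℓ)
    have h := hP.zsum_pencil S x
    rw [if_neg hxS, add_zero] at h
    rw [he, ← h]
    exact Finset.single_le_sum (f := fun m => zz S m)
      (fun m hm => hS.zz_nonneg (Finset.mem_filter.mp hm).1)
      (Finset.mem_filter.mpr ⟨hℓ, hxℓ⟩)
  have hLsne : Ls.Nonempty := by
    rw [← Finset.card_pos, hP.card_Ls]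
    positivity
  obtain ⟨ℓ0, hℓ0⟩ := hLsne
  obtain ⟨p, hp⟩ := hS ℓ0 hℓ0
  have hpS : p ∈ S := (Finset.mem_inter.mp hp).1
  have hpsum := hP.zsum_pencil S p
  rw [if_pos hpS] at hpsum
  have hle : ∑ ℓ ∈ Ls.filter (fun ℓ => p ∈ ℓ), zz S ℓ
      ≤ ∑ _ℓ ∈ Ls.filter (fun ℓ => p ∈ ℓ), e :=
    Finset.sum_le_sum fun ℓ hℓ => hze ℓ (Finset.mem_filter.mp hℓ).1
  rw [Finset.sum_const, hP.card_pencil p, nsmul_eq_mul] at hle
  push_cast at hle
  have he1 : e = 1 := by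
    have h0 : 0 ≤ e := by
      obtain ⟨x, hxℓ, hxS⟩ := Finset.not_subset.mp (hno ℓ0 hℓ0)
      exact le_trans (hS.zz_nonneg hℓ0) (hze ℓ0 hℓ0)
    have hq' : (1 : ℤ) ≤ q := by exact_mod_cast hq
    rcases eq_or_lt_of_le hlt' with h | h
    · exact h
    · exfalso
      have : e = 0 := by omega
      rw [← he, this] at hpsum
      rw [this] at hle
      linarith
  -- all lines through a point of `S` have excess exactly one
  have hall : ∀ p' ∈ S, ∀ ℓ ∈ Ls, p' ∈ ℓ → zz S ℓ = 1 := by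
    intro p' hp' ℓ hℓ hpℓ
    have hpsum' := hP.zsum_pencil S p'
    rw [if_pos hp', ← he, he1] at hpsum'
    have h1 : ∑ m ∈ Ls.filter (fun m => p' ∈ m), (1 - zz S m) = 0 := by
      rw [Finset.sum_sub_distrib, hpsum', Finset.sum_const, hP.card_pencil p']
      push_cast
      simp
      ring
    have h2 := (Finset.sum_eq_zero_iff_of_nonneg (fun m hm => by
      have := hze m (Finset.mem_filter.mp hm).1
      linarith)).mp h1 ℓ (Finset.mem_filter.mpr ⟨hℓ, hpℓ⟩)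
    linarith
  obtain ⟨x, hxℓ, hxS⟩ := Finset.not_subset.mp (hno ℓ0 hℓ0)
  have hxsum := hP.zsum_pencil S x
  rw [if_neg hxS, add_zero, ← he, he1] at hxsum
  have hone : ∀ ℓ ∈ Ls.filter (fun ℓ => x ∈ ℓ), zz S ℓ = 1 := by
    intro ℓ hℓ
    have hℓ' := Finset.mem_filter.mp hℓ
    obtain ⟨p', hp'⟩ := hS ℓ hℓ'.1
    have hp'' := Finset.mem_inter.mp hp'
    exact hall p' hp''.1 ℓ hℓ'.1 hp''.2
  rw [Finset.sum_congr rfl hone, Finset.sum_const, hP.card_pencil x] at hxsum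
  push_cast at hxsum
  simp at hxsum
  omega

/-- Excess of a line is bounded by the total excess. -/
theorem IsPlane.zz_le (hP : IsPlane Ls q) {S : Finset α}
    (hS : Blocking Ls S) (hno : ∀ ℓ ∈ Ls, ¬ ℓ ⊆ S) {ℓ : Finset α} (hℓ : ℓ ∈ Ls) :
    zz S ℓ ≤ (S.card : ℤ) - (q + 1) := by
  obtain ⟨x, hxℓ, hxS⟩ := Finset.not_subset.mp (hno ℓ hℓ)
  have h := hP.zsum_pencil S x
  rw [if_neg hxS, add_zero] at h
  rw [← h]
  exact Finset.single_le_sum (f := fun m => zz S m)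
    (fun m hm => hS.zz_nonneg (Finset.mem_filter.mp hm).1)
    (Finset.mem_filter.mpr ⟨hℓ, hxℓ⟩)

/-- A triangle `O, A, B` with sides `a = OA`, `b = OB`, `g = AB`. -/
structure Tri (Ls : Finset (Finset α)) (O A B : α) (a b g : Finset α) : Prop where
  ha : a ∈ Ls
  hb : b ∈ Ls
  hg : g ∈ Ls
  Oa : O ∈ a
  Aa : A ∈ a
  Ob : O ∈ b
  Bb : B ∈ b
  Ag : A ∈ g
  Bg : B ∈ g
  Og : O ∉ g
  Ab : A ∉ b
  Ba : B ∉ a

/-- The lines through a vertex of the triangle, except the two sides `a` and `b`. -/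
def near (Ls : Finset (Finset α)) (O A B : α) (a b : Finset α) : Finset (Finset α) :=
  Ls.filter (fun ℓ => (A ∈ ℓ ∨ B ∈ ℓ ∨ O ∈ ℓ) ∧ ℓ ≠ a ∧ ℓ ≠ b)

/-- The complementary set of lines: the sides `a`, `b` and the lines missing the vertices. -/
def far (Ls : Finset (Finset α)) (O A B : α) (a b : Finset α) : Finset (Finset α) :=
  Ls.filter (fun ℓ => ¬ ((A ∈ ℓ ∨ B ∈ ℓ ∨ O ∈ ℓ) ∧ ℓ ≠ a ∧ ℓ ≠ b))

/-- No blocking set without full lines is tangent to all lines of `near`. -/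
theorem IsPlane.not_tangent_near (hP : IsPlane Ls q) (hq : 1 ≤ q) {O A B : α}
    {a b g : Finset α} (hT : Tri Ls O A B a b g) {S : Finset α}
    (hS : Blocking Ls S) (hno : ∀ ℓ ∈ Ls, ¬ ℓ ⊆ S) :
    ∃ ℓ ∈ near Ls O A B a b, 2 ≤ (S ∩ ℓ).card := by
  by_contra hcon
  push Not at hcon
  have hz : ∀ ℓ ∈ near Ls O A B a b, zz S ℓ = 0 := by
    intro ℓ hℓ
    have h1 := hcon ℓ hℓ
    have h2 := Finset.card_pos.mpr (hS ℓ (Finset.mem_filter.mp hℓ).1)
    simp only [zz]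
    omega
  have hcard := hP.two_le_excess hq hS hno
  set e : ℤ := (S.card : ℤ) - (q + 1) with he
  have he2 : 2 ≤ e := by
    have : ((q + 3 : ℕ) : ℤ) ≤ S.card := by exact_mod_cast hcard
    push_cast at this
    linarith
  have hab : a ≠ b := fun h => hT.Ab (h ▸ hT.Aa)
  -- pencil at `A`
  have hA : zz S a = e + if A ∈ S then (q : ℤ) else 0 := by
    rw [← hP.zsum_pencil S A]
    rw [Finset.sum_eq_single_of_mem a (Finset.mem_filter.mpr ⟨hT.ha, hT.Aa⟩)]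
    intro ℓ hℓ hne
    have hℓ' := Finset.mem_filter.mp hℓ
    exact hz ℓ (Finset.mem_filter.mpr ⟨hℓ'.1, Or.inl hℓ'.2, hne,
      fun h => hT.Ab (h ▸ hℓ'.2)⟩)
  have hB : zz S b = e + if B ∈ S then (q : ℤ) else 0 := by
    rw [← hP.zsum_pencil S B]
    rw [Finset.sum_eq_single_of_mem b (Finset.mem_filter.mpr ⟨hT.hb, hT.Bb⟩)]
    intro ℓ hℓ hne
    have hℓ' := Finset.mem_filter.mp hℓ
    exact hz ℓ (Finset.mem_filter.mpr ⟨hℓ'.1, Or.inr (Or.inl hℓ'.2),
      fun h => hT.Ba (h ▸ hℓ'.2), hne⟩)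
  have hO : zz S a + zz S b = e + if O ∈ S then (q : ℤ) else 0 := by
    rw [← hP.zsum_pencil S O]
    rw [← Finset.sum_pair (f := fun ℓ => zz S ℓ) hab]
    refine Finset.sum_subset ?_ ?_
    · intro ℓ hℓ
      rw [Finset.mem_insert, Finset.mem_singleton] at hℓ
      rcases hℓ with rfl | rfl
      · exact Finset.mem_filter.mpr ⟨hT.ha, hT.Oa⟩
      · exact Finset.mem_filter.mpr ⟨hT.hb, hT.Ob⟩
    · intro ℓ hℓ hne
      have hℓ' := Finset.mem_filter.mp hℓ
      rw [Finset.mem_insert, Finset.mem_singleton] at hne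
      push Not at hne
      exact hz ℓ (Finset.mem_filter.mpr ⟨hℓ'.1, Or.inr (Or.inr hℓ'.2), hne.1, hne.2⟩)
  have hle := hP.zz_le hS hno hT.ha
  have hle' := hP.zz_le hS hno hT.hb
  have hq' : (1 : ℤ) ≤ q := by exact_mod_cast hq
  have hAe : zz S a = e := by
    split_ifs at hA with h
    · linarith
    · linarith
  have hBe : zz S b = e := by
    split_ifs at hB with h
    · linarith
    · linarith
  rw [hAe, hBe] at hO
  split_ifs at hO with h
  · have heq : e = q := by linarith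
    -- then `a` is contained in `S`
    apply hno a hT.ha
    have h1 : (S ∩ a).card = q + 1 := by
      have : zz S a = q := by rw [hAe, heq]
      simp only [zz] at this
      omega
    have h2 : S ∩ a = a := Finset.eq_of_subset_of_card_le Finset.inter_subset_right
      (by rw [h1, hP.card_line a hT.ha])
    rw [← h2]
    exact Finset.inter_subset_left
  · linarith

/-- A blocking set without full lines tangent to all lines of `far` forces order three. -/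
theorem IsPlane.tangent_far (hP : IsPlane Ls q) (hq : 3 ≤ q) {O A B : α}
    {a b g : Finset α} (hT : Tri Ls O A B a b g) {S : Finset α}
    (hS : Blocking Ls S) (hno : ∀ ℓ ∈ Ls, ¬ ℓ ⊆ S)
    (htan : ∀ ℓ ∈ far Ls O A B a b, ¬ 2 ≤ (S ∩ ℓ).card) :
    q = 3 ∧ A ∈ S ∧ B ∈ S ∧ S ∩ a = {A} ∧ S ∩ b = {B} ∧ (S ∩ g).card = 2 ∧ S.card = 6 := by
  have hz : ∀ ℓ ∈ far Ls O A B a b, zz S ℓ = 0 := by
    intro ℓ hℓ
    have h1 := htan ℓ hℓ
    have h2 := Finset.card_pos.mpr (hS ℓ (Finset.mem_filter.mp hℓ).1)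
    simp only [zz]
    omega
  have hcard := hP.two_le_excess (by omega) hS hno
  set e : ℤ := (S.card : ℤ) - (q + 1) with he
  have he2 : 2 ≤ e := by
    have : ((q + 3 : ℕ) : ℤ) ≤ S.card := by exact_mod_cast hcard
    push_cast at this
    linarith
  have hab : a ≠ b := fun h => hT.Ab (h ▸ hT.Aa)
  have hag : a ≠ g := fun h => hT.Og (h ▸ hT.Oa)
  have hbg : b ≠ g := fun h => hT.Og (h ▸ hT.Ob)
  have hza : zz S a = 0 := hz a (Finset.mem_filter.mpr ⟨hT.ha, by simp⟩)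
  have hzb : zz S b = 0 := hz b (Finset.mem_filter.mpr ⟨hT.hb, by simp⟩)
  have hAO : A ≠ O := fun h => hT.Og (h ▸ hT.Ag)
  have hBO : B ≠ O := fun h => hT.Og (h ▸ hT.Bg)
  have hAB : A ≠ B := fun h => hT.Ab (h ▸ hT.Bb)
  -- the counting identity
  have hpt : ∀ ℓ ∈ Ls, zz S ℓ = (if A ∈ ℓ then zz S ℓ else 0) + (if B ∈ ℓ then zz S ℓ else 0)
      + (if O ∈ ℓ then zz S ℓ else 0) - (if ℓ = g then zz S g else 0) := by
    intro ℓ hℓ
    by_cases hℓg : ℓ = g
    · subst hℓg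
      simp [hT.Ag, hT.Bg, hT.Og]
    · by_cases hℓa : ℓ = a
      · subst hℓa
        simp [hza, hℓg]
      · by_cases hℓb : ℓ = b
        · subst hℓb
          simp [hzb, hℓg]
        · by_cases h1 : A ∈ ℓ
          · have h2 : B ∉ ℓ := fun h2 => hℓg (hP.line_unique hAB hℓ hT.hg h1 h2 hT.Ag hT.Bg)
            have h3 : O ∉ ℓ := fun h3 => hℓa (hP.line_unique hAO hℓ hT.ha h1 h3 hT.Aa hT.Oa)
            simp [h1, h2, h3, hℓg]
          · by_cases h2 : B ∈ ℓ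
            · have h3 : O ∉ ℓ := fun h3 => hℓb (hP.line_unique hBO hℓ hT.hb h2 h3 hT.Bb hT.Ob)
              simp [h1, h2, h3, hℓg]
            · by_cases h3 : O ∈ ℓ
              · simp [h1, h2, h3, hℓg]
              · have : zz S ℓ = 0 := hz ℓ (Finset.mem_filter.mpr ⟨hℓ, by simp [h1, h2, h3]⟩)
                simp [h1, h2, h3, hℓg, this]
  have hsum : ∑ ℓ ∈ Ls, zz S ℓ = (e + if A ∈ S then (q : ℤ) else 0)
      + (e + if B ∈ S then (q : ℤ) else 0) + (e + if O ∈ S then (q : ℤ) else 0) - zz S g := by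
    rw [Finset.sum_congr rfl hpt, Finset.sum_sub_distrib, Finset.sum_add_distrib,
      Finset.sum_add_distrib, ← Finset.sum_filter, ← Finset.sum_filter, ← Finset.sum_filter,
      hP.zsum_pencil S A, hP.zsum_pencil S B, hP.zsum_pencil S O, Finset.sum_ite_eq',
      if_pos hT.hg]
  rw [hP.zsum_all S, ← he] at hsum
  have hcarda : (S ∩ a).card = 1 := by simp only [zz] at hza; omega
  have hcardb : (S ∩ b).card = 1 := by simp only [zz] at hzb; omega
  have hzg : 0 ≤ zz S g := hS.zz_nonneg hT.hg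
  have hq' : (3 : ℤ) ≤ q := by exact_mod_cast hq
  have hAOS : ¬ (A ∈ S ∧ O ∈ S) := by
    rintro ⟨h1, h2⟩
    have : 1 < (S ∩ a).card := Finset.one_lt_card.mpr
      ⟨A, by simp [h1, hT.Aa], O, by simp [h2, hT.Oa], hAO⟩
    omega
  have hBOS : ¬ (B ∈ S ∧ O ∈ S) := by
    rintro ⟨h1, h2⟩
    have : 1 < (S ∩ b).card := Finset.one_lt_card.mpr
      ⟨B, by simp [h1, hT.Bb], O, by simp [h2, hT.Ob], hBO⟩
    omega
  have hAS : A ∈ S := by
    by_contra hA
    rw [if_neg hA] at hsum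
    by_cases hO : O ∈ S
    · have hB : B ∉ S := fun h => hBOS ⟨h, hO⟩
      rw [if_neg hB, if_pos hO] at hsum
      nlinarith
    · rw [if_neg hO] at hsum
      split_ifs at hsum <;> nlinarith
  have hOS : O ∉ S := fun h => hAOS ⟨hAS, h⟩
  have hBS : B ∈ S := by
    by_contra hB
    rw [if_neg hB, if_pos hAS, if_neg hOS] at hsum
    nlinarith
  rw [if_pos hAS, if_pos hBS, if_neg hOS] at hsum
  have hzg1 : 1 ≤ zz S g := by
    have : 1 < (S ∩ g).card := Finset.one_lt_card.mpr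
      ⟨A, by simp [hAS, hT.Ag], B, by simp [hBS, hT.Bg], hAB⟩
    simp only [zz]
    omega
  -- `e (q - 2) + z_g = q`
  have hkey : e * (q - 2) + zz S g = q := by linarith
  have hq3 : (q : ℤ) = 3 := by nlinarith
  have hq3' : q = 3 := by exact_mod_cast hq3
  have he3 : e = 2 := by rw [hq3] at hkey; linarith
  have hzg2 : zz S g = 1 := by rw [hq3, he3] at hkey; linarith
  refine ⟨hq3', hAS, hBS, ?_, ?_, ?_, ?_⟩
  · obtain ⟨x, hx⟩ := Finset.card_eq_one.mp hcarda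
    have : A ∈ S ∩ a := by simp [hAS, hT.Aa]
    rw [hx] at this ⊢
    rw [Finset.mem_singleton.mp this]
  · obtain ⟨x, hx⟩ := Finset.card_eq_one.mp hcardb
    have : B ∈ S ∩ b := by simp [hBS, hT.Bb]
    rw [hx] at this ⊢
    rw [Finset.mem_singleton.mp this]
  · simp only [zz] at hzg2
    omega
  · omega

end Pool.Agent.H8.PP
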