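import Pool.Agent.Lib.H8.PP.Lehman
import Pool.Agent.Lib.H8.PP.Plane

set_option autoImplicit false

/-!
Clutters whose members of size `q + 1` are the lines of a projective plane of order `q`, and all of
whose proper minors are ideal: members are blocking sets, and the key dichotomy.
-/

namespace Pool.Agent.H8.PP

open Finset

variable {α : Type*} [Fintype α] [DecidableEq α]

/-- The setting: `Ls` are the members of `C` with `q + 1` elements, they form a projective plane,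
every member has at least `q + 1` elements, and all proper minors of `C` are ideal. -/
structure Core (C Ls : Finset (Finset α)) (q : ℕ) : Prop where
  plane : IsPlane Ls q
  minors : MinorsIdeal C
  sub : Ls ⊆ C
  size : ∀ S ∈ C, q + 1 ≤ S.card
  mem_Ls : ∀ S ∈ C, S.card = q + 1 → S ∈ Ls
  anti : ∀ S ∈ C, ∀ T ∈ C, S ⊆ T → S = T

variable {C Ls : Finset (Finset α)} {q : ℕ}

/-- A line minus one of its points meets every member of `C` avoiding this point. -/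
theorem Core.punctured_line (h : Core C Ls q) (hq : 1 ≤ q) {ℓ : Finset α} (hℓ : ℓ ∈ Ls) {j : α}
    (hj : j ∈ ℓ) {R : Finset α} (hR : R ∈ C) (hjR : j ∉ R) : (ℓ.erase j ∩ R).Nonempty := by
  classical
  have hP := h.plane
  have hq0 : (0 : ℝ) < q := by exact_mod_cast hq
  have hq1 : (0 : ℝ) < (q : ℝ) + 1 := by linarith
  let y : α → ℝ := fun i => if i = j then 0 else 1 / ((q : ℝ) + 1)
  have hy : y ∈ poly C {j} ∅ := by
    refine ⟨fun i => ?_, fun i hi => ?_, fun S hS hd => ?_⟩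
    · simp only [y]
      split_ifs
      · exact le_rfl
      · positivity
    · have : i = j := by simpa using hi
      simp [y, this]
    · have hjS : j ∉ S := by simpa using hd
      have h1 : ∑ i ∈ S, y i = ∑ _i ∈ S, 1 / ((q : ℝ) + 1) := by
        refine Finset.sum_congr rfl fun i hi => ?_
        have : i ≠ j := fun h => hjS (h ▸ hi)
        simp [y, this]
      rw [h1, Finset.sum_const, nsmul_eq_mul, mul_one_div, le_div_iff₀ hq1, one_mul]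
      have := h.size S hS
      exact_mod_cast this
  let w : α → ℝ := fun i => if i ∈ ℓ then 1 else 1 + 1 / (q : ℝ)
  have hw : ∀ i, 0 < w i := by
    intro i
    simp only [w]
    split_ifs <;> positivity
  obtain ⟨T, hjT, hT, hle⟩ := del_lp C h.minors j y hy w hw
  -- the value at `y`
  have hcardℓ := hP.card_line ℓ hℓ
  have hval : ∑ i, w i * y i = (q : ℝ) + (q : ℝ) / ((q : ℝ) + 1) := by
    have h1 : ∀ i, w i * y i = (1 / ((q : ℝ) + 1)) * (1 + 1 / (q : ℝ))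
        - (if i ∈ ℓ then (1 / ((q : ℝ) + 1)) * (1 / (q : ℝ)) else 0)
        - (if i = j then (1 / ((q : ℝ) + 1)) else 0) := by
      intro i
      simp only [w, y]
      by_cases hij : i = j
      · subst hij
        simp [hj]
        ring
      · by_cases hiℓ : i ∈ ℓ
        · simp [hij, hiℓ]
          ring
        · simp [hij, hiℓ]
          ring
    rw [Finset.sum_congr rfl fun i _ => h1 i, Finset.sum_sub_distrib, Finset.sum_sub_distrib,
      Finset.sum_const, Finset.sum_ite_mem, Finset.univ_inter, Finset.sum_const,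
      Finset.sum_ite_eq', if_pos (Finset.mem_univ j), Finset.card_univ, hP.card_pts, hcardℓ]
    simp only [nsmul_eq_mul]
    push_cast
    field_simp
    ring
  have hvalT : ∑ i ∈ T, w i = (T.card : ℝ) + ((T \ ℓ).card : ℝ) / (q : ℝ) := by
    have h1 : ∀ i ∈ T, w i = 1 + if i ∉ ℓ then 1 / (q : ℝ) else 0 := by
      intro i _
      simp only [w]
      by_cases hiℓ : i ∈ ℓ <;> simp [hiℓ]
    rw [Finset.sum_congr rfl h1, Finset.sum_add_distrib, ← Finset.sum_filter,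
      Finset.sum_const, Finset.sum_const, ← Finset.sdiff_eq_filter]
    simp [div_eq_mul_inv]
  rw [hval, hvalT] at hle
  have hfrac : (q : ℝ) / ((q : ℝ) + 1) < 1 := by
    rw [div_lt_one hq1]
    linarith
  have hTq : T.card ≤ q := by
    have h1 : (0 : ℝ) ≤ ((T \ ℓ).card : ℝ) / (q : ℝ) := by positivity
    have h2 : (T.card : ℝ) < q + 1 := by linarith
    have : T.card < q + 1 := by exact_mod_cast h2
    omega
  -- lines not through `j` meet `T`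
  have hTline : ∀ m ∈ Ls, j ∉ m → (T ∩ m).Nonempty := fun m hm hjm => hT m (h.sub hm) hjm
  -- for a point outside `T ∪ {j}` the line joining it to `j` misses `T`
  have hmiss : ∀ x, x ∉ T → x ≠ j → T.card = q ∧ ∀ m ∈ Ls, x ∈ m → j ∈ m → T ∩ m = ∅ := by
    intro x hxT hxj
    obtain ⟨m0, hm0, hxm0, hjm0⟩ := hP.join x j hxj
    have hsum := hP.sum_pencil T x
    rw [if_neg hxT, add_zero] at hsum
    have hmem : m0 ∈ Ls.filter (fun ℓ => x ∈ ℓ) := Finset.mem_filter.mpr ⟨hm0, hxm0⟩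
    rw [← Finset.add_sum_erase _ _ hmem] at hsum
    have hge : q ≤ ∑ m ∈ (Ls.filter (fun ℓ => x ∈ ℓ)).erase m0, (T ∩ m).card := by
      have hc : ((Ls.filter (fun ℓ => x ∈ ℓ)).erase m0).card = q := by
        rw [Finset.card_erase_of_mem hmem, hP.card_pencil x]
        rfl
      calc q = ∑ _m ∈ (Ls.filter (fun ℓ => x ∈ ℓ)).erase m0, 1 := by simp [hc]
        _ ≤ _ := by
          refine Finset.sum_le_sum fun m hm => ?_
          have hm' := Finset.mem_erase.mp hm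
          have hm'' := Finset.mem_filter.mp hm'.2
          apply Finset.card_pos.mpr
          apply hTline m hm''.1
          intro hjm
          exact hm'.1 (hP.line_unique hxj hm''.1 hm0 hm''.2 hjm hxm0 hjm0)
    have h0 : (T ∩ m0).card = 0 := by omega
    refine ⟨by omega, ?_⟩
    intro m hm hxm hjm
    have : m = m0 := hP.line_unique hxj hm hm0 hxm hjm hxm0 hjm0
    rw [this]
    exact Finset.card_eq_zero.mp h0
  -- there is such a point, so `T` has exactly `q` points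
  have hTcard : T.card = q := by
    have hex : ∃ x, x ∉ insert j T := by
      by_contra hcon
      push Not at hcon
      have h1 : (Finset.univ : Finset α) ⊆ insert j T := fun x _ => hcon x
      have h2 := Finset.card_le_card h1
      rw [Finset.card_univ, hP.card_pts] at h2
      have h3 := Finset.card_insert_le j T
      nlinarith
    obtain ⟨x, hx⟩ := hex
    rw [Finset.mem_insert] at hx
    push Not at hx
    exact (hmiss x hx.2 hx.1).1
  -- every line through `j` and a point of `T` is contained in `T ∪ {j}`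
  have hfull : ∀ t ∈ T, ∀ m ∈ Ls, t ∈ m → j ∈ m → m.erase j = T := by
    intro t ht m hm htm hjm
    apply Finset.eq_of_subset_of_card_le
    · intro x hx
      have hx' := Finset.mem_erase.mp hx
      by_contra hxT
      have := (hmiss x hxT hx'.1).2 m hm hx'.2 hjm
      have h1 : t ∈ T ∩ m := Finset.mem_inter.mpr ⟨ht, htm⟩
      rw [this] at h1
      simp at h1
    · rw [Finset.card_erase_of_mem hjm, hP.card_line m hm, hTcard]
      simp
  -- `T` meets `ℓ`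
  have hmeet : (T ∩ ℓ).Nonempty := by
    by_contra hne
    rw [Finset.not_nonempty_iff_eq_empty] at hne
    have h1 : T \ ℓ = T := by
      rw [Finset.sdiff_eq_self_iff_disjoint, Finset.disjoint_iff_inter_eq_empty]
      exact hne
    rw [h1, hTcard, div_self hq0.ne'] at hle
    linarith
  obtain ⟨t, ht⟩ := hmeet
  have ht' := Finset.mem_inter.mp ht
  rw [hfull t ht'.1 ℓ hℓ ht'.2 hj]
  exact hT R hR hjR

/-- Every member of `C` meets every line. -/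
theorem Core.blocking (h : Core C Ls q) (hq : 1 ≤ q) {R : Finset α} (hR : R ∈ C) :
    Blocking Ls R := by
  intro ℓ hℓ
  by_contra hne
  rw [Finset.not_nonempty_iff_eq_empty] at hne
  have hcard := h.plane.card_line ℓ hℓ
  have hne' : ℓ.Nonempty := by
    rw [← Finset.card_pos]
    omega
  obtain ⟨j, hj⟩ := hne'
  have hjR : j ∉ R := by
    intro hjR
    have : j ∈ R ∩ ℓ := Finset.mem_inter.mpr ⟨hjR, hj⟩
    rw [hne] at this
    simp at this
  obtain ⟨x, hx⟩ := h.punctured_line hq hℓ hj hR hjR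
  have hx' := Finset.mem_inter.mp hx
  have : x ∈ R ∩ ℓ := Finset.mem_inter.mpr ⟨hx'.2, (Finset.mem_erase.mp hx'.1).2⟩
  rw [hne] at this
  simp at this

/-- A nonline member contains no line. -/
theorem Core.no_line (h : Core C Ls q) {R : Finset α} (hR : R ∈ C) (hRL : R ∉ Ls) :
    ∀ ℓ ∈ Ls, ¬ ℓ ⊆ R := by
  intro ℓ hℓ hsub
  have := h.anti ℓ (h.sub hℓ) R hR hsub
  exact hRL (this ▸ hℓ)

/-- The vector attached to a set `𝒯` of lines and a small parameter `σ`. -/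
noncomputable def vec (𝒯 : Finset (Finset α)) (q : ℕ) (σ : ℝ) : α → ℝ :=
  fun i => ((1 + σ) / (𝒯.card : ℝ)) * ((𝒯.filter (fun ℓ => i ∈ ℓ)).card : ℝ) - σ / ((q : ℝ) + 1)

omit [Fintype α] in
theorem sum_vec (𝒯 : Finset (Finset α)) (q : ℕ) (σ : ℝ) (S : Finset α) :
    ∑ i ∈ S, vec 𝒯 q σ i = ((1 + σ) / (𝒯.card : ℝ)) * (∑ ℓ ∈ 𝒯, ((S ∩ ℓ).card : ℝ))
      - (S.card : ℝ) * (σ / ((q : ℝ) + 1)) := by
  simp only [vec]
  rw [Finset.sum_sub_distrib, ← Finset.mul_sum, Finset.sum_const, nsmul_eq_mul]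
  congr 2
  have h1 : ∀ i ∈ S, ((𝒯.filter (fun ℓ => i ∈ ℓ)).card : ℝ) = ∑ ℓ ∈ 𝒯, if i ∈ ℓ then 1 else 0 := by
    intro i _
    rw [Finset.sum_boole]
  rw [Finset.sum_congr rfl h1, Finset.sum_comm]
  refine Finset.sum_congr rfl fun ℓ _ => ?_
  rw [Finset.sum_boole, Finset.filter_mem_eq_inter]

theorem sum_vec_mul (𝒯 : Finset (Finset α)) (q : ℕ) (σ : ℝ) (x : α → ℝ) :
    ∑ i, vec 𝒯 q σ i * x i = ((1 + σ) / (𝒯.card : ℝ)) * (∑ ℓ ∈ 𝒯, ∑ i ∈ ℓ, x i)
      - σ / ((q : ℝ) + 1) * ∑ i, x i := by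
  have h1 : ∀ i, vec 𝒯 q σ i * x i = ((1 + σ) / (𝒯.card : ℝ)) *
      (((𝒯.filter (fun ℓ => i ∈ ℓ)).card : ℝ) * x i) - σ / ((q : ℝ) + 1) * x i := by
    intro i
    simp only [vec]
    ring
  rw [Finset.sum_congr rfl fun i _ => h1 i, Finset.sum_sub_distrib, ← Finset.mul_sum,
    ← Finset.mul_sum]
  congr 2
  have h2 : ∀ ℓ ∈ 𝒯, ∑ i ∈ ℓ, x i = ∑ i, if i ∈ ℓ then x i else 0 := by
    intro ℓ _
    rw [Finset.sum_ite_mem, Finset.univ_inter]
  rw [Finset.sum_congr rfl h2, Finset.sum_comm]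
  refine Finset.sum_congr rfl fun i _ => ?_
  rw [← Finset.sum_filter, Finset.sum_const, nsmul_eq_mul]

theorem vec_pos (h : Core C Ls q) (hq : 1 ≤ q) (𝒯 : Finset (Finset α)) (hsub : 𝒯 ⊆ Ls)
    (hcov : ∀ x, ∃ ℓ ∈ 𝒯, x ∈ ℓ) {σ : ℝ} (hσ : 0 < σ)
    (hσn : σ * (Fintype.card α : ℝ) ^ 2 = 1) (i : α) : 0 < vec 𝒯 q σ i := by
  obtain ⟨ℓ, hℓ, hi⟩ := hcov i
  have hn1 : (1 : ℝ) ≤ (Fintype.card α : ℝ) := by
    have : 1 ≤ Fintype.card α := Fintype.card_pos_iff.mpr ⟨i⟩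
    exact_mod_cast this
  have hN1 : (1 : ℝ) ≤ (𝒯.card : ℝ) := by
    have : 1 ≤ 𝒯.card := Finset.card_pos.mpr ⟨ℓ, hℓ⟩
    exact_mod_cast this
  have hNn : (𝒯.card : ℝ) ≤ (Fintype.card α : ℝ) := by
    have h1 := Finset.card_le_card hsub
    rw [h.plane.card_Ls, ← h.plane.card_pts] at h1
    exact_mod_cast h1
  have hc : (1 : ℝ) ≤ ((𝒯.filter (fun ℓ => i ∈ ℓ)).card : ℝ) := by
    have : 1 ≤ (𝒯.filter (fun ℓ => i ∈ ℓ)).card :=
      Finset.card_pos.mpr ⟨ℓ, Finset.mem_filter.mpr ⟨hℓ, hi⟩⟩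
    exact_mod_cast this
  have hq0 : (1 : ℝ) ≤ q := by exact_mod_cast hq
  have h1 : (1 + σ) / (Fintype.card α : ℝ) ≤ (1 + σ) / (𝒯.card : ℝ) := by
    apply div_le_div_of_nonneg_left <;> linarith
  have h2 : σ / ((q : ℝ) + 1) ≤ σ := by
    rw [div_le_iff₀ (by linarith)]
    nlinarith
  have h3 : σ < (1 + σ) / (Fintype.card α : ℝ) := by
    rw [lt_div_iff₀ (by linarith)]
    nlinarith
  have h4 : (1 + σ) / (𝒯.card : ℝ) ≤
      ((1 + σ) / (𝒯.card : ℝ)) * ((𝒯.filter (fun ℓ => i ∈ ℓ)).card : ℝ) := by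
    have : 0 ≤ (1 + σ) / (𝒯.card : ℝ) := by positivity
    nlinarith
  simp only [vec]
  linarith

/-- Values of the vector on a set meeting all lines of `𝒯`. -/
theorem one_le_vec (h : Core C Ls q) (hq : 1 ≤ q) (𝒯 : Finset (Finset α)) (hsub : 𝒯 ⊆ Ls)
    (hne : 𝒯.Nonempty) {σ : ℝ} (hσ : 0 < σ)
    (hσn : σ * (Fintype.card α : ℝ) ^ 2 = 1) (S : Finset α)
    (hS : ∀ ℓ ∈ 𝒯, (S ∩ ℓ).Nonempty) (hor : S.card ≤ q + 1 ∨ ∃ ℓ ∈ 𝒯, 2 ≤ (S ∩ ℓ).card) :
    1 ≤ ∑ i ∈ S, vec 𝒯 q σ i := by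
  rw [sum_vec]
  have hN1 : (1 : ℝ) ≤ (𝒯.card : ℝ) := by
    have : 1 ≤ 𝒯.card := Finset.card_pos.mpr hne
    exact_mod_cast this
  have hNn : (𝒯.card : ℝ) ≤ (Fintype.card α : ℝ) := by
    have h1 := Finset.card_le_card hsub
    rw [h.plane.card_Ls, ← h.plane.card_pts] at h1
    exact_mod_cast h1
  have hn1 : (1 : ℝ) ≤ (Fintype.card α : ℝ) := le_trans hN1 hNn
  have hq0 : (1 : ℝ) ≤ q := by exact_mod_cast hq
  have hge : ∀ ℓ ∈ 𝒯, (1 : ℝ) ≤ ((S ∩ ℓ).card : ℝ) := by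
    intro ℓ hℓ
    have := Finset.card_pos.mpr (hS ℓ hℓ)
    exact_mod_cast this
  have hcoef : 0 ≤ (1 + σ) / (𝒯.card : ℝ) := by positivity
  rcases hor with hcard | ⟨ℓ0, hℓ0, h2⟩
  · have h1 : (𝒯.card : ℝ) ≤ ∑ ℓ ∈ 𝒯, ((S ∩ ℓ).card : ℝ) := by
      calc (𝒯.card : ℝ) = ∑ _ℓ ∈ 𝒯, (1 : ℝ) := by simp
        _ ≤ _ := Finset.sum_le_sum hge
    have h3 : 1 + σ ≤ ((1 + σ) / (𝒯.card : ℝ)) * (∑ ℓ ∈ 𝒯, ((S ∩ ℓ).card : ℝ)) := by
      calc 1 + σ = ((1 + σ) / (𝒯.card : ℝ)) * (𝒯.card : ℝ) := by field_simp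
        _ ≤ _ := mul_le_mul_of_nonneg_left h1 hcoef
    have h4 : (S.card : ℝ) * (σ / ((q : ℝ) + 1)) ≤ σ := by
      have h5 : (S.card : ℝ) ≤ (q : ℝ) + 1 := by exact_mod_cast hcard
      calc (S.card : ℝ) * (σ / ((q : ℝ) + 1)) ≤ ((q : ℝ) + 1) * (σ / ((q : ℝ) + 1)) :=
            mul_le_mul_of_nonneg_right h5 (by positivity)
        _ = σ := by field_simp
    linarith
  · have h1 : (𝒯.card : ℝ) + 1 ≤ ∑ ℓ ∈ 𝒯, ((S ∩ ℓ).card : ℝ) := by
      rw [← Finset.add_sum_erase _ _ hℓ0]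
      have h3 : ((𝒯.erase ℓ0).card : ℝ) ≤ ∑ ℓ ∈ 𝒯.erase ℓ0, ((S ∩ ℓ).card : ℝ) := by
        calc ((𝒯.erase ℓ0).card : ℝ) = ∑ _ℓ ∈ 𝒯.erase ℓ0, (1 : ℝ) := by simp
          _ ≤ _ := Finset.sum_le_sum fun ℓ hℓ => hge ℓ (Finset.mem_of_mem_erase hℓ)
      have h4 : ((𝒯.erase ℓ0).card : ℝ) = (𝒯.card : ℝ) - 1 := by
        rw [Finset.card_erase_of_mem hℓ0, Nat.cast_sub (Finset.card_pos.mpr hne)]
        simp
      have h5 : (2 : ℝ) ≤ ((S ∩ ℓ0).card : ℝ) := by exact_mod_cast h2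
      linarith
    have h3 : 1 + σ + (1 + σ) / (𝒯.card : ℝ)
        ≤ ((1 + σ) / (𝒯.card : ℝ)) * (∑ ℓ ∈ 𝒯, ((S ∩ ℓ).card : ℝ)) := by
      calc 1 + σ + (1 + σ) / (𝒯.card : ℝ)
          = ((1 + σ) / (𝒯.card : ℝ)) * ((𝒯.card : ℝ) + 1) := by field_simp
        _ ≤ _ := mul_le_mul_of_nonneg_left h1 hcoef
    have h4 : (1 : ℝ) / (Fintype.card α : ℝ) ≤ (1 + σ) / (𝒯.card : ℝ) := by
      rw [div_le_div_iff₀ (by linarith) (by linarith)]
      nlinarith
    have h5 : (S.card : ℝ) * (σ / ((q : ℝ) + 1)) ≤ 1 / (Fintype.card α : ℝ) := by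
      have h6 : (S.card : ℝ) ≤ (Fintype.card α : ℝ) := by
        have := Finset.card_le_univ S
        exact_mod_cast this
      have h7 : σ / ((q : ℝ) + 1) ≤ σ := by
        rw [div_le_iff₀ (by linarith)]
        nlinarith
      have h8 : σ = 1 / (Fintype.card α : ℝ) ^ 2 := by
        field_simp
        linarith
      calc (S.card : ℝ) * (σ / ((q : ℝ) + 1)) ≤ (Fintype.card α : ℝ) * σ := by
            apply mul_le_mul h6 h7 (by positivity) (by positivity)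
        _ = 1 / (Fintype.card α : ℝ) := by
            rw [h8]
            field_simp
    linarith

/-- The key dichotomy. -/
theorem Core.key (h : Core C Ls q) (hq : 1 ≤ q) (𝒯₁ 𝒯₂ : Finset (Finset α))
    (h1 : 𝒯₁ ⊆ Ls) (h2 : 𝒯₂ ⊆ Ls) (hd : Disjoint 𝒯₁ 𝒯₂)
    (c1 : ∀ x, ∃ ℓ ∈ 𝒯₁, x ∈ ℓ) (c2 : ∀ x, ∃ ℓ ∈ 𝒯₂, x ∈ ℓ)
    (hR : ∀ R ∈ C, R ∉ Ls → ∃ ℓ ∈ 𝒯₁, 2 ≤ (R ∩ ℓ).card)
    (hS : ∀ S : Finset α, (∀ R ∈ C, (S ∩ R).Nonempty) → (∀ ℓ ∈ Ls, ¬ ℓ ⊆ S) →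
      ∃ ℓ ∈ 𝒯₂, 2 ≤ (S ∩ ℓ).card) : False := by
  classical
  have hP := h.plane
  have hLs : 0 < Fintype.card α := by
    rw [hP.card_pts]
    positivity
  obtain ⟨x0⟩ := Fintype.card_pos_iff.mp hLs
  have hne1 : 𝒯₁.Nonempty := by obtain ⟨ℓ, hℓ, _⟩ := c1 x0; exact ⟨ℓ, hℓ⟩
  have hne2 : 𝒯₂.Nonempty := by obtain ⟨ℓ, hℓ, _⟩ := c2 x0; exact ⟨ℓ, hℓ⟩
  set n : ℝ := (Fintype.card α : ℝ) with hn
  have hnpos : 0 < n := by rw [hn]; exact_mod_cast hLs
  have hq0 : (1 : ℝ) ≤ q := by exact_mod_cast hq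
  have hnq : n = (q : ℝ) ^ 2 + q + 1 := by
    rw [hn, hP.card_pts]
    push_cast
    ring
  have hN1 : (0 : ℝ) < (𝒯₁.card : ℝ) := by exact_mod_cast Finset.card_pos.mpr hne1
  have hN2 : (0 : ℝ) < (𝒯₂.card : ℝ) := by exact_mod_cast Finset.card_pos.mpr hne2
  let σ : ℝ := 1 / n ^ 2
  have hσ : 0 < σ := by positivity
  have hσn : σ * (Fintype.card α : ℝ) ^ 2 = 1 := by
    simp only [σ]
    rw [← hn]
    field_simp
  set v := vec 𝒯₁ q σ with hv
  set w := vec 𝒯₂ q σ with hw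
  have hvb : v ∈ base C := by
    refine ⟨fun i => (vec_pos h hq 𝒯₁ h1 c1 hσ hσn i).le, fun R hRC => ?_⟩
    apply one_le_vec h hq 𝒯₁ h1 hne1 hσ hσn R (fun ℓ hℓ => h.blocking hq hRC ℓ (h1 hℓ))
    by_cases hRL : R ∈ Ls
    · left
      rw [hP.card_line R hRL]
    · right
      exact hR R hRC hRL
  have hwpos : ∀ i, 0 < w i := vec_pos h hq 𝒯₂ h2 c2 hσ hσn
  -- the product is less than one
  have hwℓ : ∀ ℓ ∈ 𝒯₁, ∑ i ∈ ℓ, w i = 1 := by
    intro ℓ hℓ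
    rw [hw, sum_vec]
    have h3 : ∑ m ∈ 𝒯₂, ((ℓ ∩ m).card : ℝ) = (𝒯₂.card : ℝ) := by
      have h4 : ∀ m ∈ 𝒯₂, ((ℓ ∩ m).card : ℝ) = 1 := by
        intro m hm
        have hne : ℓ ≠ m := fun he => (Finset.disjoint_left.mp hd hℓ) (he ▸ hm)
        rw [hP.meet ℓ (h1 hℓ) m (h2 hm) hne]
        simp
      rw [Finset.sum_congr rfl h4]
      simp
    rw [h3, hP.card_line ℓ (h1 hℓ)]
    push_cast
    field_simp
    ring
  have hwsum : ∑ i, w i = (1 + σ) * ((q : ℝ) + 1) - n * (σ / ((q : ℝ) + 1)) := by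
    rw [hw, sum_vec]
    have h3 : ∑ m ∈ 𝒯₂, (((Finset.univ : Finset α) ∩ m).card : ℝ)
        = (𝒯₂.card : ℝ) * ((q : ℝ) + 1) := by
      have h4 : ∀ m ∈ 𝒯₂, (((Finset.univ : Finset α) ∩ m).card : ℝ) = (q : ℝ) + 1 := by
        intro m hm
        rw [Finset.univ_inter, hP.card_line m (h2 hm)]
        push_cast
        ring
      rw [Finset.sum_congr rfl h4, Finset.sum_const, nsmul_eq_mul]
    rw [h3, Finset.card_univ, ← hn]
    field_simp
  have hprod : ∑ i, w i * v i = 1 - σ ^ 2 + n * σ ^ 2 / ((q : ℝ) + 1) ^ 2 := by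
    have h3 : ∑ i, w i * v i = ∑ i, v i * w i := Finset.sum_congr rfl fun i _ => mul_comm _ _
    rw [h3, hv, sum_vec_mul, Finset.sum_congr rfl hwℓ, hwsum]
    simp only [Finset.sum_const, nsmul_eq_mul, mul_one]
    field_simp
    ring
  have hlt : ∑ i, w i * v i < 1 := by
    rw [hprod]
    have h3 : n * σ ^ 2 / ((q : ℝ) + 1) ^ 2 < σ ^ 2 := by
      rw [div_lt_iff₀ (by positivity), hnq]
      have : 0 < σ ^ 2 := by positivity
      nlinarith
    linarith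
  obtain ⟨e, he, hle⟩ := exists_extreme_le (base C) (by rw [base_eq]; exact isClosed_poly C _ _)
    (by rw [base_eq]; exact convex_poly C _ _) (fun x hx => hx.1) w hwpos v hvb
  have heb : e ∈ base C := he.1
  by_cases hint : ∀ i, ∃ z : ℤ, e i = (z : ℝ)
  · obtain ⟨T, hT, hTle⟩ := integral_point C e heb hint w hwpos
    have hge : 1 ≤ ∑ i ∈ T, w i := by
      apply one_le_vec h hq 𝒯₂ h2 hne2 hσ hσn T (fun ℓ hℓ => hT ℓ (h.sub (h2 hℓ)))
      by_cases hno : ∀ ℓ ∈ Ls, ¬ ℓ ⊆ T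
      · right
        exact hS T hT hno
      · push Not at hno
        obtain ⟨ℓ0, hℓ0, hsub⟩ := hno
        by_cases hTℓ : T ⊆ ℓ0
        · left
          rw [Finset.Subset.antisymm hTℓ hsub, hP.card_line ℓ0 hℓ0]
        · right
          obtain ⟨p, hpT, hpℓ⟩ := Finset.not_subset.mp hTℓ
          obtain ⟨m, hm, hpm⟩ := c2 p
          have hmℓ : m ≠ ℓ0 := fun he => hpℓ (he ▸ hpm)
          have hone := hP.meet m (h2 hm) ℓ0 hℓ0 hmℓ
          obtain ⟨x, hx⟩ := Finset.card_eq_one.mp hone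
          have hx' : x ∈ m ∩ ℓ0 := by rw [hx]; simp
          have hx'' := Finset.mem_inter.mp hx'
          refine ⟨m, hm, ?_⟩
          have : 1 < (T ∩ m).card := Finset.one_lt_card.mpr
            ⟨p, Finset.mem_inter.mpr ⟨hpT, hpm⟩, x,
              Finset.mem_inter.mpr ⟨hsub hx''.2, hx''.1⟩, fun hpx => hpℓ (hpx ▸ hx''.2)⟩
          omega
    linarith
  · push Not at hint
    have hb := frac_bound C h.minors (q + 1) h.size e he hint
    have hwe : ∑ i, w i * e i = ((1 + σ) / (𝒯₂.card : ℝ)) * (∑ ℓ ∈ 𝒯₂, ∑ i ∈ ℓ, e i)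
      - σ / ((q : ℝ) + 1) * ∑ i, e i := sum_vec_mul 𝒯₂ q σ e
    have h3 : (𝒯₂.card : ℝ) ≤ ∑ ℓ ∈ 𝒯₂, ∑ i ∈ ℓ, e i := by
      calc (𝒯₂.card : ℝ) = ∑ _ℓ ∈ 𝒯₂, (1 : ℝ) := by simp
        _ ≤ _ := Finset.sum_le_sum fun ℓ hℓ => heb.2 ℓ (h.sub (h2 hℓ))
    have h4 : 1 + σ ≤ ((1 + σ) / (𝒯₂.card : ℝ)) * (∑ ℓ ∈ 𝒯₂, ∑ i ∈ ℓ, e i) := by
      calc 1 + σ = ((1 + σ) / (𝒯₂.card : ℝ)) * (𝒯₂.card : ℝ) := by field_simp
        _ ≤ _ := mul_le_mul_of_nonneg_left h3 (by positivity)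
    have h5 : σ / ((q : ℝ) + 1) * ∑ i, e i ≤ σ := by
      rw [div_mul_eq_mul_div, div_le_iff₀ (by positivity)]
      apply mul_le_mul_of_nonneg_left _ hσ.le
      have h6 : ((q + 1 : ℕ) : ℝ) * ∑ i, e i ≤ n := hb
      push_cast at h6
      have h7 : n ≤ ((q : ℝ) + 1) * ((q : ℝ) + 1) := by rw [hnq]; nlinarith
      have h8 : ((q : ℝ) + 1) * ∑ i, e i ≤ ((q : ℝ) + 1) * ((q : ℝ) + 1) := le_trans h6 h7
      exact le_of_mul_le_mul_left h8 (by positivity)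
    linarith

end Pool.Agent.H8.PP
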