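import Mathlib

set_option autoImplicit false

/-!
Elementary linear programming facts for covering polyhedra: existence of good extreme points,
and the domination lemma obtained from separation.
-/

namespace Pool.Agent.H8.PP

open Finset

variable {α : Type*} [Fintype α]

/-- A closed convex subset of the nonnegative orthant has, for every positive weight `w` and every
point `y` of it, an extreme point whose weight is at most that of `y`. -/
theorem exists_extreme_le (P : Set (α → ℝ)) (hc : IsClosed P) (_hconv : Convex ℝ P)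
    (hpos : ∀ x ∈ P, ∀ i, 0 ≤ x i) (w : α → ℝ) (hw : ∀ i, 0 < w i) (y : α → ℝ) (hy : y ∈ P) :
    ∃ e ∈ Set.extremePoints ℝ P, ∑ i, w i * e i ≤ ∑ i, w i * y i := by
  classical
  let f : (α → ℝ) → ℝ := fun x => ∑ i, w i * x i
  have hf : Continuous f := by fun_prop
  have hadd : ∀ (a b : ℝ) (x z : α → ℝ), f (a • x + b • z) = a * f x + b * f z := by
    intro a b x z
    simp only [f, Pi.add_apply, Pi.smul_apply, smul_eq_mul, Finset.mul_sum]
    rw [← Finset.sum_add_distrib]
    refine Finset.sum_congr rfl fun i _ => ?_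
    ring
  let K : Set (α → ℝ) := P ∩ {x | f x ≤ f y}
  have hKc : IsClosed K := hc.inter (isClosed_le hf continuous_const)
  have hKb : K ⊆ Set.Icc (fun _ => (0 : ℝ)) (fun i => f y / w i) := by
    intro x hx
    refine ⟨fun i => hpos x hx.1 i, fun i => ?_⟩
    have h1 : w i * x i ≤ f x := by
      refine Finset.single_le_sum (f := fun i => w i * x i) (fun j _ => ?_) (Finset.mem_univ i)
      exact mul_nonneg (hw j).le (hpos x hx.1 j)
    have h2 : f x ≤ f y := hx.2
    rw [le_div_iff₀ (hw i)]
    nlinarith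
  have hKcomp : IsCompact K := isCompact_Icc.of_isClosed_subset hKc hKb
  have hyK : y ∈ K := ⟨hy, le_refl (f y)⟩
  obtain ⟨x0, hx0, hmin⟩ := hKcomp.exists_isMinOn ⟨y, hyK⟩ hf.continuousOn
  have hx0le : ∀ x ∈ P, f x0 ≤ f x := by
    intro x hx
    by_cases h : f x ≤ f y
    · exact hmin ⟨hx, h⟩
    · exact le_trans hx0.2 (not_le.mp h).le
  let F : Set (α → ℝ) := P ∩ {x | f x = f x0}
  have hFK : F ⊆ K := by
    intro x hx
    refine ⟨hx.1, ?_⟩
    have : f x = f x0 := hx.2
    simp only [Set.mem_ofPred_eq]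
    rw [this]
    exact hx0.2
  have hFc : IsCompact F :=
    hKcomp.of_isClosed_subset (hc.inter (isClosed_eq hf continuous_const)) hFK
  obtain ⟨e, he⟩ := hFc.extremePoints_nonempty ⟨x0, hx0.1, rfl⟩
  have hext : IsExtreme ℝ P F := by
    refine ⟨Set.inter_subset_left, ?_⟩
    intro x1 hx1 x2 hx2 z hz hseg
    obtain ⟨a, b, ha, hb, hab, rfl⟩ := hseg
    have h1 := hx0le x1 hx1
    have h2 := hx0le x2 hx2
    have h3 : f (a • x1 + b • x2) = f x0 := hz.2
    rw [hadd] at h3
    refine ⟨hx1, ?_⟩
    simp only [Set.mem_ofPred_eq]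
    have : a * (f x1 - f x0) + b * (f x2 - f x0) = 0 := by
      have : a * f x0 + b * f x0 = f x0 := by rw [← add_mul, hab, one_mul]
      linarith
    have h4 : 0 ≤ a * (f x1 - f x0) := mul_nonneg ha.le (by linarith)
    have h5 : 0 ≤ b * (f x2 - f x0) := mul_nonneg hb.le (by linarith)
    have h6 : a * (f x1 - f x0) = 0 := by linarith
    rcases mul_eq_zero.mp h6 with h7 | h7
    · exact absurd h7 ha.ne'
    · linarith
  refine ⟨e, hext.extremePoints_subset_extremePoints he, ?_⟩
  have heF : e ∈ F := he.1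
  have : f e = f x0 := heF.2
  calc ∑ i, w i * e i = f e := rfl
    _ = f x0 := this
    _ ≤ f y := hx0.2

/-- The indicator vector of a finite set. -/
def ind [DecidableEq α] (T : Finset α) : α → ℝ := fun i => if i ∈ T then 1 else 0

theorem sum_mul_ind [DecidableEq α] (T : Finset α) (w : α → ℝ) :
    ∑ i, w i * ind T i = ∑ i ∈ T, w i := by
  simp [ind]

omit [Fintype α] in
theorem sum_ind [DecidableEq α] (S T : Finset α) :
    ∑ i ∈ S, ind T i = ((S ∩ T).card : ℝ) := by
  simp [ind, Finset.sum_ite_mem]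

/-- Domination lemma: if every positive weight is at most `w · y` on some member of a finite
family of sets, then `y` dominates a convex combination of the indicator vectors. -/
theorem exists_convex_le [DecidableEq α] (𝒯 : Finset (Finset α)) (y : α → ℝ)
    (hy : ∀ i, 0 ≤ y i)
    (h : ∀ w : α → ℝ, (∀ i, 0 < w i) → ∃ T ∈ 𝒯, ∑ i ∈ T, w i ≤ ∑ i, w i * y i) :
    ∃ y' ∈ convexHull ℝ ((fun T => ind T) '' (𝒯 : Set (Finset α))), ∀ i, y' i ≤ y i := by
  classical
  by_contra hcon
  push Not at hcon
  set A : Set (α → ℝ) := convexHull ℝ ((fun T => ind T) '' (𝒯 : Set (Finset α))) with hA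
  let B : Set (α → ℝ) := {z | ∀ i, z i ≤ y i}
  have hBset : B = Set.Iic y := by
    ext z; simp [B, Pi.le_def]
  have hAcomp : IsCompact A := by
    apply Set.Finite.isCompact_convexHull
    exact (𝒯.finite_toSet).image _
  have hdisj : Disjoint A B := by
    rw [Set.disjoint_left]
    intro z hzA hzB
    obtain ⟨i, hi⟩ := hcon z hzA
    exact absurd (hzB i) (not_le.mpr hi)
  obtain ⟨f, u, v, hfA, huv, hfB⟩ := geometric_hahn_banach_compact_closed (convex_convexHull ℝ _)
    hAcomp (by rw [hBset]; exact convex_Iic y) (by rw [hBset]; exact isClosed_Iic) hdisj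
  let c : α → ℝ := fun i => f (Pi.single i 1)
  have hfc : ∀ z : α → ℝ, f z = ∑ i, c i * z i := by
    intro z
    have hz : z = ∑ i, z i • (Pi.single i (1 : ℝ) : α → ℝ) := by
      ext j
      simp [Finset.sum_apply, Pi.single_apply]
    conv_lhs => rw [hz]
    rw [map_sum]
    refine Finset.sum_congr rfl fun i _ => ?_
    rw [map_smul, smul_eq_mul, mul_comm]
  have hc : ∀ i, c i ≤ 0 := by
    intro i
    by_contra hci
    push Not at hci
    have hfy : v < f y := hfB y (fun _ => le_rfl)
    let t : ℝ := (f y - v) / c i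
    have ht : 0 < t := div_pos (by linarith) hci
    have hmem : y - t • (Pi.single i (1 : ℝ) : α → ℝ) ∈ B := by
      intro j
      by_cases hj : j = i
      · subst hj
        simp [ht.le]
      · simp [hj]
    have h1 := hfB _ hmem
    rw [map_sub, map_smul, smul_eq_mul] at h1
    have h2 : t * c i = f y - v := by
      simp only [t]
      field_simp
    have h3 : f (Pi.single i 1) = c i := rfl
    rw [h3, h2] at h1
    linarith
  have hysum : 0 ≤ ∑ i, y i := Finset.sum_nonneg fun i _ => hy i
  let ε : ℝ := (v - u) / (∑ i, y i + 1)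
  have hε : 0 < ε := div_pos (by linarith) (by linarith)
  have hεy : ε * ∑ i, y i < v - u := by
    have h1 : ε * (∑ i, y i + 1) = v - u := by
      simp only [ε]
      field_simp
    nlinarith
  obtain ⟨T, hT, hle⟩ := h (fun i => -c i + ε) (fun i => by have := hc i; linarith)
  have h1 : f (ind T) < u := hfA _ (subset_convexHull ℝ _ ⟨T, hT, rfl⟩)
  have h2 : v < f y := hfB y (fun _ => le_rfl)
  rw [hfc] at h1 h2
  rw [sum_mul_ind] at h1
  have h3 : ∑ i, (-c i + ε) * y i = -∑ i, c i * y i + ε * ∑ i, y i := by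
    rw [Finset.mul_sum, ← Finset.sum_neg_distrib, ← Finset.sum_add_distrib]
    refine Finset.sum_congr rfl fun i _ => ?_
    ring
  have h4 : -∑ i ∈ T, c i ≤ ∑ i ∈ T, (-c i + ε) := by
    rw [← Finset.sum_neg_distrib]
    exact Finset.sum_le_sum fun i _ => by linarith
  rw [h3] at hle
  linarith

end Pool.Agent.H8.PP
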