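import Pool.Agent.Lib.H8.PP.LP

set_option autoImplicit false

/-!
Covering polyhedra of clutters all of whose proper minors have integral extreme points:
every non-integral extreme point has small coordinate sum (a form of Lehman's theorem).
-/

namespace Pool.Agent.H8.PP

open Finset

variable {α : Type*} [Fintype α] [DecidableEq α]

/-- The covering polyhedron of the clutter `C`. -/
def base (C : Finset (Finset α)) : Set (α → ℝ) :=
  {x | (∀ i, 0 ≤ x i) ∧ ∀ S ∈ C, (1 : ℝ) ≤ ∑ i ∈ S, x i}

/-- The covering polyhedron of the minor of `C` with `I` deleted and `J` contracted. -/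
def poly (C : Finset (Finset α)) (I J : Finset α) : Set (α → ℝ) :=
  {x | (∀ i, 0 ≤ x i) ∧ (∀ i ∈ I ∪ J, x i = 0) ∧
    ∀ S ∈ C, Disjoint S I → (1 : ℝ) ≤ ∑ i ∈ S, x i}

/-- All proper minors of `C` have integral extreme points. -/
def MinorsIdeal (C : Finset (Finset α)) : Prop :=
  ∀ I J : Finset α, Disjoint I J → (I ∪ J).Nonempty →
    ∀ x ∈ Set.extremePoints ℝ (poly C I J), ∀ i : α, ∃ z : ℤ, x i = (z : ℝ)

omit [Fintype α] in
theorem isClosed_poly (C : Finset (Finset α)) (I J : Finset α) : IsClosed (poly C I J) := by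
  have h : poly C I J = (⋂ i, {x | (0 : ℝ) ≤ x i}) ∩ ((⋂ i ∈ I ∪ J, {x | x i = 0}) ∩
      ⋂ S ∈ C, ⋂ _ : Disjoint S I, {x : α → ℝ | (1 : ℝ) ≤ ∑ i ∈ S, x i}) := by
    ext x
    simp [poly]
  rw [h]
  refine IsClosed.inter (isClosed_iInter fun i => isClosed_le continuous_const
    (continuous_apply i)) (IsClosed.inter ?_ ?_)
  · exact isClosed_biInter fun i _ => isClosed_eq (continuous_apply i) continuous_const
  · refine isClosed_biInter fun S _ => isClosed_iInter fun _ => isClosed_le continuous_const ?_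
    exact continuous_finsetSum _ fun i _ => continuous_apply i

omit [Fintype α] in
theorem convex_poly (C : Finset (Finset α)) (I J : Finset α) : Convex ℝ (poly C I J) := by
  intro x hx y hy a b ha hb hab
  refine ⟨fun i => ?_, fun i hi => ?_, fun S hS hd => ?_⟩
  · have := hx.1 i
    have := hy.1 i
    simp only [Pi.add_apply, Pi.smul_apply, smul_eq_mul]
    positivity
  · simp [hx.2.1 i hi, hy.2.1 i hi]
  · have h1 := hx.2.2 S hS hd
    have h2 := hy.2.2 S hS hd
    simp only [Pi.add_apply, Pi.smul_apply, smul_eq_mul, Finset.sum_add_distrib,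
      ← Finset.mul_sum]
    nlinarith

omit [Fintype α] in
theorem base_eq (C : Finset (Finset α)) : base C = poly C ∅ ∅ := by
  ext x
  simp [base, poly]

/-- In an integral minor obtained by deleting `j`, weights are attained on transversals. -/
theorem del_lp (C : Finset (Finset α)) (hm : MinorsIdeal C) (j : α) (y : α → ℝ)
    (hy : y ∈ poly C {j} ∅) (w : α → ℝ) (hw : ∀ i, 0 < w i) :
    ∃ T : Finset α, j ∉ T ∧ (∀ S ∈ C, j ∉ S → (T ∩ S).Nonempty) ∧
      ∑ i ∈ T, w i ≤ ∑ i, w i * y i := by
  obtain ⟨e, he, hle⟩ := exists_extreme_le (poly C {j} ∅) (isClosed_poly C _ _)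
    (convex_poly C _ _) (fun x hx => hx.1) w hw y hy
  have hint := hm {j} ∅ (by simp) (by simp) e he
  have heP : e ∈ poly C {j} ∅ := he.1
  refine ⟨Finset.univ.filter (fun i => e i ≠ 0), ?_, ?_, ?_⟩
  · have := heP.2.1 j (by simp)
    simp [this]
  · intro S hS hj
    have h1 := heP.2.2 S hS (by simpa using hj)
    by_contra hne
    rw [Finset.not_nonempty_iff_eq_empty] at hne
    have h2 : ∑ i ∈ S, e i = 0 := by
      refine Finset.sum_eq_zero fun i hi => ?_
      by_contra hi0
      have : i ∈ (Finset.univ.filter (fun i => e i ≠ 0)) ∩ S := by simp [hi0, hi]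
      rw [hne] at this
      simp at this
    linarith
  · refine le_trans ?_ hle
    rw [Finset.sum_filter]
    refine Finset.sum_le_sum fun i _ => ?_
    split_ifs with h
    · obtain ⟨z, hz⟩ := hint i
      have h0 := heP.1 i
      have h1 : (1 : ℝ) ≤ e i := by
        rw [hz] at h0 h ⊢
        have : (0 : ℤ) ≤ z := by exact_mod_cast h0
        have h2 : z ≠ 0 := by exact_mod_cast h
        have : (1 : ℤ) ≤ z := by omega
        exact_mod_cast this
      have := hw i
      nlinarith
    · exact mul_nonneg (hw i).le (heP.1 i)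

/-- An integral extreme point of the covering polyhedron dominates a transversal. -/
theorem integral_point (C : Finset (Finset α)) (e : α → ℝ) (he : e ∈ base C)
    (hint : ∀ i : α, ∃ z : ℤ, e i = (z : ℝ)) (w : α → ℝ) (hw : ∀ i, 0 < w i) :
    ∃ T : Finset α, (∀ S ∈ C, (T ∩ S).Nonempty) ∧ ∑ i ∈ T, w i ≤ ∑ i, w i * e i := by
  refine ⟨Finset.univ.filter (fun i => e i ≠ 0), ?_, ?_⟩
  · intro S hS
    have h1 := he.2 S hS
    by_contra hne
    rw [Finset.not_nonempty_iff_eq_empty] at hne
    have h2 : ∑ i ∈ S, e i = 0 := by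
      refine Finset.sum_eq_zero fun i hi => ?_
      by_contra hi0
      have : i ∈ (Finset.univ.filter (fun i => e i ≠ 0)) ∩ S := by simp [hi0, hi]
      rw [hne] at this
      simp at this
    linarith
  · rw [Finset.sum_filter]
    refine Finset.sum_le_sum fun i _ => ?_
    split_ifs with h
    · obtain ⟨z, hz⟩ := hint i
      have h0 := he.1 i
      have h1 : (1 : ℝ) ≤ e i := by
        rw [hz] at h0 h ⊢
        have : (0 : ℤ) ≤ z := by exact_mod_cast h0
        have h2 : z ≠ 0 := by exact_mod_cast h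
        have : (1 : ℤ) ≤ z := by omega
        exact_mod_cast this
      have := hw i
      nlinarith
    · exact mul_nonneg (hw i).le (he.1 i)

/-- Linear algebra count: affinely independent vectors `T k` with `j ∉ T k` meeting each of the
linearly independent sets `S ∈ 𝓑` (not containing `j`) in exactly one point. -/
theorem card_add_card_le {ι : Type*} [Fintype ι] (j : α) (N : Finset (Finset α))
    (hN : LinearIndependent ℝ (fun S : N => (ind (S : Finset α) : α → ℝ)))
    (hNj : ∀ S ∈ N, j ∉ S) (T : ι → Finset α) (hT : AffineIndependent ℝ (fun k => ind (T k)))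
    (hTj : ∀ k, j ∉ T k) (hTS : ∀ k, ∀ S ∈ N, (T k ∩ S).card = 1) :
    Fintype.card ι + N.card ≤ Fintype.card α := by
  classical
  rcases isEmpty_or_nonempty ι with hι | hι
  · have h := hN.fintype_card_le_finrank
    simp only [Fintype.card_coe, Module.finrank_fintype_fun_eq_card] at h
    simp [h]
  obtain ⟨k0⟩ := hι
  have hD : LinearIndependent ℝ (fun k : {k // k ≠ k0} => (ind (T k) - ind (T k0) : α → ℝ)) := by
    have := (affineIndependent_iff_linearIndependent_vsub ℝ _ k0).mp hT
    simpa using this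
  -- the three families are mutually orthogonal
  let v : ({k // k ≠ k0} ⊕ N) ⊕ Unit → (α → ℝ) :=
    Sum.elim (Sum.elim (fun k => ind (T k) - ind (T k0)) (fun S => ind (S : Finset α)))
      (fun _ => ind {j})
  have hv : LinearIndependent ℝ v := by
    rw [Fintype.linearIndependent_iff]
    intro g hg
    rw [Fintype.sum_sum_type, Fintype.sum_sum_type] at hg
    simp only [v, Sum.elim_inl, Sum.elim_inr, Finset.univ_unique, Finset.sum_singleton,
      PUnit.default_eq_unit] at hg
    set u1 : α → ℝ := ∑ k : {k // k ≠ k0}, g (Sum.inl (Sum.inl k)) •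
      (ind (T k) - ind (T k0) : α → ℝ) with hu1
    set u2 : α → ℝ := ∑ S : N, g (Sum.inl (Sum.inr S)) • (ind (S : Finset α) : α → ℝ) with hu2
    set c : ℝ := g (Sum.inr ()) with hcdef
    have hdot : ∀ S ∈ N, ∑ i, u1 i * ind S i = 0 := by
      intro S hS
      simp only [hu1, Finset.sum_apply, Pi.smul_apply, Pi.sub_apply, smul_eq_mul,
        Finset.sum_mul]
      rw [Finset.sum_comm]
      refine Finset.sum_eq_zero fun k _ => ?_
      have : ∑ i, g (Sum.inl (Sum.inl k)) * (ind (T k) i - ind (T k0) i) * ind S i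
          = g (Sum.inl (Sum.inl k)) * (∑ i, ind (T k) i * ind S i
            - ∑ i, ind (T k0) i * ind S i) := by
        rw [← Finset.sum_sub_distrib, Finset.mul_sum]
        refine Finset.sum_congr rfl fun i _ => ?_
        ring
      rw [this, sum_mul_ind, sum_mul_ind, sum_ind, sum_ind, Finset.inter_comm S,
        Finset.inter_comm S, hTS _ S hS, hTS _ S hS]
      simp
    have h12 : ∑ i, u1 i * u2 i = 0 := by
      simp only [hu2, Finset.sum_apply, Pi.smul_apply, smul_eq_mul, Finset.mul_sum]
      rw [Finset.sum_comm]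
      refine Finset.sum_eq_zero fun S _ => ?_
      have h := hdot S S.2
      calc ∑ i, u1 i * (g (Sum.inl (Sum.inr S)) * ind (S : Finset α) i)
          = g (Sum.inl (Sum.inr S)) * ∑ i, u1 i * ind (S : Finset α) i := by
            rw [Finset.mul_sum]
            refine Finset.sum_congr rfl fun i _ => ?_
            ring
        _ = 0 := by rw [h, mul_zero]
    have hu1j : u1 j = 0 := by
      simp only [hu1, Finset.sum_apply, Pi.smul_apply, Pi.sub_apply, smul_eq_mul]
      refine Finset.sum_eq_zero fun k _ => ?_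
      simp [ind, hTj]
    have hu2j : u2 j = 0 := by
      simp only [hu2, Finset.sum_apply, Pi.smul_apply, smul_eq_mul]
      refine Finset.sum_eq_zero fun S _ => ?_
      simp [ind, hNj S S.2]
    have hgi : ∀ i, u1 i + u2 i + c * ind {j} i = 0 := by
      intro i
      have := congrFun hg i
      simpa using this
    have hc0 : c = 0 := by
      have := hgi j
      rw [hu1j, hu2j] at this
      simpa [ind] using this
    have h11 : ∑ i, u1 i * u1 i = 0 := by
      have : ∀ i, u1 i * u1 i = - (u1 i * u2 i) := by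
        intro i
        have h := hgi i
        rw [hc0, zero_mul, add_zero] at h
        have h' : u2 i = - u1 i := by linarith
        rw [h']
        ring
      rw [Finset.sum_congr rfl (fun i _ => this i), Finset.sum_neg_distrib, h12, neg_zero]
    have hu10 : u1 = 0 := by
      ext i
      have := (Finset.sum_eq_zero_iff_of_nonneg (fun i _ => mul_self_nonneg (u1 i))).mp h11 i
        (Finset.mem_univ i)
      simpa using this
    have hu20 : u2 = 0 := by
      ext i
      have h := hgi i
      rw [hc0, hu10] at h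
      simpa using h
    have hg1 : ∀ k, g (Sum.inl (Sum.inl k)) = 0 :=
      Fintype.linearIndependent_iff.mp hD _ (hu1 ▸ hu10)
    have hg2 : ∀ S, g (Sum.inl (Sum.inr S)) = 0 :=
      Fintype.linearIndependent_iff.mp hN _ (hu2 ▸ hu20)
    rintro ((k | S) | u)
    · exact hg1 k
    · exact hg2 S
    · exact hc0
  have hcard := hv.fintype_card_le_finrank
  rw [Module.finrank_fintype_fun_eq_card, Fintype.card_sum, Fintype.card_sum] at hcard
  have h1 : Fintype.card {k // k ≠ k0} = Fintype.card ι - 1 := by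
    rw [Fintype.card_subtype_compl, Fintype.card_subtype_eq]
  have h2 : 1 ≤ Fintype.card ι := Fintype.card_pos_iff.mpr ⟨k0⟩
  rw [h1, Fintype.card_coe, Fintype.card_unit] at hcard
  omega

omit [Fintype α] in
theorem ind_injective : Function.Injective (ind : Finset α → α → ℝ) := by
  intro S T h
  ext i
  have := congrFun h i
  by_cases h1 : i ∈ S <;> by_cases h2 : i ∈ T <;> simp_all [ind]

omit [Fintype α] in
/-- A nonintegral extreme point of the covering polyhedron is positive. -/
theorem pos_of_frac (C : Finset (Finset α)) (hm : MinorsIdeal C) (x : α → ℝ)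
    (hx : x ∈ Set.extremePoints ℝ (base C)) (hfrac : ∃ i, ∀ z : ℤ, x i ≠ (z : ℝ)) (j : α) :
    0 < x j := by
  have hxb : x ∈ base C := hx.1
  rcases (hxb.1 j).lt_or_eq with h | h
  · exact h
  exfalso
  have hmem : x ∈ poly C ∅ {j} := by
    refine ⟨hxb.1, fun i hi => ?_, fun S hS _ => hxb.2 S hS⟩
    have : i = j := by simpa using hi
    rw [this, ← h]
  have hsub : poly C ∅ {j} ⊆ base C := by
    intro y hy
    exact ⟨hy.1, fun S hS => hy.2.2 S hS (by simp)⟩
  have hext : x ∈ Set.extremePoints ℝ (poly C ∅ {j}) :=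
    inter_extremePoints_subset_extremePoints_of_subset hsub ⟨hmem, hx⟩
  obtain ⟨i, hi⟩ := hfrac
  obtain ⟨z, hz⟩ := hm ∅ {j} (by simp) (by simp) x hext i
  exact hi z hz

/-- The tight members at a positive extreme point span. -/
theorem span_tight (C : Finset (Finset α)) (x : α → ℝ)
    (hx : x ∈ Set.extremePoints ℝ (base C)) (hpos : ∀ i, 0 < x i) :
    Submodule.span ℝ ((fun S : Finset α => (ind S : α → ℝ)) ''
      {S | S ∈ C ∧ ∑ i ∈ S, x i = 1}) = ⊤ := by
  classical
  by_contra hne
  obtain ⟨f, hf0, hf⟩ := Submodule.exists_le_ker_of_lt_top _ (lt_top_iff_ne_top.mpr hne)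
  let y : α → ℝ := fun i => f (Pi.single i 1)
  have hfy : ∀ z : α → ℝ, f z = ∑ i, y i * z i := by
    intro z
    have hz : z = ∑ i, z i • (Pi.single i (1 : ℝ) : α → ℝ) := by
      ext j
      simp [Finset.sum_apply, Pi.single_apply]
    conv_lhs => rw [hz]
    rw [map_sum]
    refine Finset.sum_congr rfl fun i _ => ?_
    rw [map_smul, smul_eq_mul, mul_comm]
  have hyS : ∀ S ∈ C, ∑ i ∈ S, x i = 1 → ∑ i ∈ S, y i = 0 := by
    intro S hS h1
    have : (ind S : α → ℝ) ∈ LinearMap.ker f := hf (Submodule.subset_span ⟨S, ⟨hS, h1⟩, rfl⟩)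
    rw [LinearMap.mem_ker, hfy, sum_mul_ind] at this
    exact this
  have hy0 : y ≠ 0 := by
    intro h
    apply hf0
    ext z
    simp only [LinearMap.coe_comp, LinearMap.coe_single, Function.comp_apply,
      LinearMap.zero_apply]
    rw [hfy, h]
    simp
  have hxb : x ∈ base C := hx.1
  have hev : ∀ᶠ ε : ℝ in nhds 0, (∀ i, 0 ≤ x i + ε * y i) ∧
      ∀ S ∈ C, (1 : ℝ) ≤ ∑ i ∈ S, (x i + ε * y i) := by
    refine Filter.Eventually.and ?_ ?_
    · rw [Filter.eventually_all]
      intro i
      have hc : Filter.Tendsto (fun ε : ℝ => x i + ε * y i) (nhds 0) (nhds (x i + 0 * y i)) := by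
        apply Continuous.tendsto
        fun_prop
      have hp : (0 : ℝ) < x i + 0 * y i := by simpa using hpos i
      filter_upwards [hc.eventually (lt_mem_nhds hp)] with ε hε using hε.le
    · rw [Filter.eventually_all_finset]
      intro S hS
      have h1 := hxb.2 S hS
      rcases h1.eq_or_lt with h1 | h1
      · filter_upwards with ε
        rw [Finset.sum_add_distrib, ← Finset.mul_sum, hyS S hS h1.symm, ← h1]
        simp
      · have hc : Filter.Tendsto (fun ε : ℝ => ∑ i ∈ S, (x i + ε * y i)) (nhds 0)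
            (nhds (∑ i ∈ S, (x i + 0 * y i))) := by
          apply Continuous.tendsto
          fun_prop
        have hp : (1 : ℝ) < ∑ i ∈ S, (x i + 0 * y i) := by simpa using h1
        filter_upwards [hc.eventually (lt_mem_nhds hp)] with ε hε using hε.le
  rw [Metric.eventually_nhds_iff] at hev
  obtain ⟨δ, hδ, hball⟩ := hev
  have hp := hball (y := δ / 2) (by rw [dist_zero_right, Real.norm_eq_abs, abs_of_pos] <;> linarith)
  have hn := hball (y := -(δ / 2)) (by
    rw [dist_zero_right, Real.norm_eq_abs, abs_neg, abs_of_pos] <;> linarith)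
  have hx' := (mem_extremePoints.mp hx).2 (fun i => x i + δ / 2 * y i) ⟨hp.1, hp.2⟩
    (fun i => x i + -(δ / 2) * y i) ⟨hn.1, hn.2⟩ (by
      refine ⟨1 / 2, 1 / 2, by norm_num, by norm_num, by norm_num, ?_⟩
      ext i
      simp only [Pi.add_apply, Pi.smul_apply, smul_eq_mul]
      ring)
  apply hy0
  ext i
  have := congrFun hx'.1 i
  simp only [Pi.zero_apply]
  have h2 : δ / 2 * y i = 0 := by linarith
  rcases mul_eq_zero.mp h2 with h3 | h3
  · linarith
  · exact h3

/-- A vector orthogonal to a spanning family of indicator vectors vanishes. -/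
theorem eq_zero_of_orth (𝓑 : Set (Finset α))
    (hspan : Submodule.span ℝ ((fun S : Finset α => (ind S : α → ℝ)) '' 𝓑) = ⊤) (y : α → ℝ)
    (hy : ∀ S ∈ 𝓑, ∑ i ∈ S, y i = 0) : y = 0 := by
  classical
  let f : (α → ℝ) →ₗ[ℝ] ℝ := ∑ i, y i • LinearMap.proj i
  have hf : ∀ z : α → ℝ, f z = ∑ i, y i * z i := by
    intro z
    simp [f, LinearMap.sum_apply]
  have hker : Submodule.span ℝ ((fun S : Finset α => (ind S : α → ℝ)) '' 𝓑)
      ≤ LinearMap.ker f := by
    rw [Submodule.span_le]
    rintro _ ⟨S, hS, rfl⟩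
    simp only [SetLike.mem_coe, LinearMap.mem_ker]
    rw [hf, sum_mul_ind]
    exact hy S hS
  rw [hspan] at hker
  ext i
  have : (Pi.single i (1 : ℝ) : α → ℝ) ∈ LinearMap.ker f := hker Submodule.mem_top
  rw [LinearMap.mem_ker, hf] at this
  simpa [Pi.single_apply] using this

/-- Every nonintegral extreme point has coordinate sum at most `n / r`. -/
theorem frac_bound (C : Finset (Finset α)) (hm : MinorsIdeal C) (r : ℕ)
    (hr : ∀ S ∈ C, r ≤ S.card) (x : α → ℝ) (hx : x ∈ Set.extremePoints ℝ (base C))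
    (hfrac : ∃ i, ∀ z : ℤ, x i ≠ (z : ℝ)) :
    (r : ℝ) * ∑ i, x i ≤ Fintype.card α := by
  classical
  have hpos := pos_of_frac C hm x hx hfrac
  have hxb : x ∈ base C := hx.1
  have hspan := span_tight C x hx hpos
  obtain ⟨b, hbs, hbspan, hbli⟩ := exists_linearIndependent ℝ
    ((fun S : Finset α => (ind S : α → ℝ)) '' {S | S ∈ C ∧ ∑ i ∈ S, x i = 1})
  let 𝓑 : Finset (Finset α) := C.filter (fun S => (ind S : α → ℝ) ∈ b)
  have h𝓑 : ∀ S ∈ 𝓑, S ∈ C ∧ ∑ i ∈ S, x i = 1 := by
    intro S hS
    have hS' := (Finset.mem_filter.mp hS)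
    obtain ⟨S', hS'mem, hS'eq⟩ := hbs hS'.2
    have : S' = S := ind_injective hS'eq
    subst this
    exact hS'mem
  have himg : (fun S : Finset α => (ind S : α → ℝ)) '' (𝓑 : Set (Finset α)) = b := by
    ext v
    constructor
    · rintro ⟨S, hS, rfl⟩
      exact (Finset.mem_filter.mp hS).2
    · intro hv
      obtain ⟨S, hS, rfl⟩ := hbs hv
      exact ⟨S, by simp [𝓑, hS.1, hv], rfl⟩
  have hspan𝓑 : Submodule.span ℝ ((fun S : Finset α => (ind S : α → ℝ)) ''
      (𝓑 : Set (Finset α))) = ⊤ := by
    rw [himg, hbspan, hspan]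
  have hli : LinearIndependent ℝ (fun S : 𝓑 => (ind (S : Finset α) : α → ℝ)) := by
    let φ : 𝓑 → b := fun S => ⟨ind (S : Finset α), (Finset.mem_filter.mp S.2).2⟩
    have hφ : Function.Injective φ := by
      intro S T h
      have : (ind (S : Finset α) : α → ℝ) = ind (T : Finset α) := congrArg Subtype.val h
      exact Subtype.ext (ind_injective this)
    exact hbli.comp φ hφ
  have hcard𝓑 : 𝓑.card = Fintype.card α := by
    have hsp : ⊤ ≤ Submodule.span ℝ (Set.range (fun S : 𝓑 => (ind (S : Finset α) : α → ℝ))) := by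
      have : Set.range (fun S : 𝓑 => (ind (S : Finset α) : α → ℝ)) =
          (fun S : Finset α => (ind S : α → ℝ)) '' (𝓑 : Set (Finset α)) := by
        ext v
        simp
      rw [this, hspan𝓑]
    have h := Module.finrank_eq_card_basis (Module.Basis.mk hli hsp)
    rw [Module.finrank_fintype_fun_eq_card, Fintype.card_coe] at h
    exact h.symm
  -- every point lies in at least `r` members of the basis
  have hdeg : ∀ j : α, r ≤ (𝓑.filter (fun S => j ∈ S)).card := by
    intro j
    have hS0 : ∃ S0 ∈ 𝓑, j ∉ S0 := by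
      by_contra hcon
      push Not at hcon
      have h0 := eq_zero_of_orth (𝓑 : Set (Finset α)) hspan𝓑
        (fun i => x i - if i = j then 1 else 0) (by
          intro S hS
          rw [Finset.sum_sub_distrib, (h𝓑 S hS).2]
          simp [hcon S hS])
      obtain ⟨i, hi⟩ := hfrac
      have h1 := congrFun h0 i
      simp only [Pi.zero_apply] at h1
      split_ifs at h1 with h2
      · exact hi 1 (by push_cast; linarith)
      · exact hi 0 (by push_cast; linarith)
    obtain ⟨S0, hS0, hjS0⟩ := hS0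
    let y : α → ℝ := fun i => if i = j then 0 else x i
    have hy : y ∈ poly C {j} ∅ := by
      refine ⟨fun i => ?_, fun i hi => ?_, fun S hS hd => ?_⟩
      · simp only [y]
        split_ifs
        · exact le_rfl
        · exact hxb.1 i
      · have : i = j := by simpa using hi
        simp [y, this]
      · have hjS : j ∉ S := by simpa using hd
        have : ∑ i ∈ S, y i = ∑ i ∈ S, x i := by
          refine Finset.sum_congr rfl fun i hi => ?_
          have : i ≠ j := fun h => hjS (h ▸ hi)
          simp [y, this]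
        rw [this]
        exact hxb.2 S hS
    let 𝒯 : Finset (Finset α) := Finset.univ.filter
      (fun T => j ∉ T ∧ ∀ S ∈ C, j ∉ S → (T ∩ S).Nonempty)
    obtain ⟨y', hy'mem, hy'le⟩ := exists_convex_le 𝒯 y hy.1 (by
      intro w hw
      obtain ⟨T, hjT, hT, hle⟩ := del_lp C hm j y hy w hw
      exact ⟨T, by simp only [𝒯, Finset.mem_filter, Finset.mem_univ, true_and]; exact ⟨hjT, hT⟩,
        hle⟩)
    obtain ⟨ι, hι, z, wt, hz, hai, hwpos, hwsum, hzy⟩ := eq_pos_convex_span_of_mem_convexHull hy'mem
    have hzT : ∀ k, ∃ T ∈ 𝒯, ind T = z k := by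
      intro k
      obtain ⟨T, hT, hTz⟩ := hz ⟨k, rfl⟩
      exact ⟨T, hT, hTz⟩
    choose T hT𝒯 hTz using hzT
    have hTj : ∀ k, j ∉ T k := fun k => (Finset.mem_filter.mp (hT𝒯 k)).2.1
    have hTne : ∀ k, ∀ S ∈ C, j ∉ S → (T k ∩ S).Nonempty :=
      fun k => (Finset.mem_filter.mp (hT𝒯 k)).2.2
    have hai' : AffineIndependent ℝ (fun k => (ind (T k) : α → ℝ)) := by
      have : (fun k => (ind (T k) : α → ℝ)) = z := funext hTz
      rw [this]
      exact hai
    have hy'S : ∀ S : Finset α, ∑ i ∈ S, y' i = ∑ k, wt k * ((T k ∩ S).card : ℝ) := by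
      intro S
      rw [← hzy]
      simp only [Finset.sum_apply, Pi.smul_apply, smul_eq_mul]
      rw [Finset.sum_comm]
      refine Finset.sum_congr rfl fun k _ => ?_
      rw [← Finset.mul_sum, ← hTz k, sum_ind, Finset.inter_comm]
    have hyS : ∀ S ∈ 𝓑, j ∉ S → ∑ i ∈ S, y i = 1 := by
      intro S hS hjS
      rw [← (h𝓑 S hS).2]
      refine Finset.sum_congr rfl fun i hi => ?_
      have : i ≠ j := fun h => hjS (h ▸ hi)
      simp [y, this]
    have hsumle : ∀ S ∈ 𝓑, j ∉ S → ∑ i ∈ S, y' i ≤ 1 := by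
      intro S hS hjS
      rw [← hyS S hS hjS]
      exact Finset.sum_le_sum fun i _ => hy'le i
    have hone : ∀ k, ∀ S ∈ 𝓑, j ∉ S → (T k ∩ S).card = 1 := by
      intro k S hS hjS
      have hcardge : ∀ k', (1 : ℝ) ≤ ((T k' ∩ S).card : ℝ) := by
        intro k'
        have := Finset.card_pos.mpr (hTne k' S (h𝓑 S hS).1 hjS)
        exact_mod_cast this
      have h1 : ∑ k', wt k' * (((T k' ∩ S).card : ℝ) - 1) ≤ 0 := by
        have h2 := hsumle S hS hjS
        rw [hy'S] at h2
        have h3 : ∑ k', wt k' * (((T k' ∩ S).card : ℝ) - 1)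
            = ∑ k', wt k' * ((T k' ∩ S).card : ℝ) - ∑ k', wt k' := by
          rw [← Finset.sum_sub_distrib]
          refine Finset.sum_congr rfl fun k' _ => ?_
          ring
        rw [h3, hwsum]
        linarith
      have h4 : ∀ k' ∈ (Finset.univ : Finset ι), 0 ≤ wt k' * (((T k' ∩ S).card : ℝ) - 1) :=
        fun k' _ => mul_nonneg (hwpos k').le (by linarith [hcardge k'])
      have h5 : ∑ k', wt k' * (((T k' ∩ S).card : ℝ) - 1) = 0 :=
        le_antisymm h1 (Finset.sum_nonneg h4)
      have h6 := (Finset.sum_eq_zero_iff_of_nonneg h4).mp h5 k (Finset.mem_univ k)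
      rcases mul_eq_zero.mp h6 with h7 | h7
      · exact absurd h7 (hwpos k).ne'
      · have : ((T k ∩ S).card : ℝ) = 1 := by linarith
        exact_mod_cast this
    -- every point of `S0` is covered
    have hcover : ∀ p ∈ S0, ∃ k, p ∈ T k := by
      intro p hp
      by_contra hcon
      push Not at hcon
      have hy'p : y' p = 0 := by
        rw [← hzy]
        simp only [Finset.sum_apply, Pi.smul_apply, smul_eq_mul]
        refine Finset.sum_eq_zero fun k _ => ?_
        rw [← hTz k]
        simp [ind, hcon k]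
      have hpj : p ≠ j := fun h => hjS0 (h ▸ hp)
      have hyp : y p = x p := by simp [y, hpj]
      have h1 : ∑ i ∈ S0, y' i < ∑ i ∈ S0, y i := by
        refine Finset.sum_lt_sum (fun i _ => hy'le i) ⟨p, hp, ?_⟩
        rw [hy'p, hyp]
        exact hpos p
      rw [hyS S0 hS0 hjS0, hy'S] at h1
      have h2 : ∑ k, wt k * ((T k ∩ S0).card : ℝ) = 1 := by
        rw [← hwsum]
        refine Finset.sum_congr rfl fun k _ => ?_
        rw [hone k S0 hS0 hjS0]
        simp
      linarith
    have hcardι : S0.card ≤ Fintype.card ι := by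
      have hsub : S0 ⊆ Finset.univ.biUnion (fun k => T k ∩ S0) := by
        intro p hp
        obtain ⟨k, hk⟩ := hcover p hp
        exact Finset.mem_biUnion.mpr ⟨k, Finset.mem_univ k, Finset.mem_inter.mpr ⟨hk, hp⟩⟩
      calc S0.card ≤ (Finset.univ.biUnion (fun k => T k ∩ S0)).card := Finset.card_le_card hsub
        _ ≤ ∑ k, (T k ∩ S0).card := Finset.card_biUnion_le
        _ = ∑ _k : ι, 1 := Finset.sum_congr rfl fun k _ => hone k S0 hS0 hjS0
        _ = Fintype.card ι := by simp
    have hN : (𝓑.filter (fun S => j ∉ S)) ⊆ 𝓑 := Finset.filter_subset _ _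
    have hNli : LinearIndependent ℝ
        (fun S : (𝓑.filter (fun S => j ∉ S) : Finset (Finset α)) =>
          (ind (S : Finset α) : α → ℝ)) := by
      let φ : (𝓑.filter (fun S => j ∉ S) : Finset (Finset α)) → 𝓑 := fun S => ⟨S, hN S.2⟩
      have hφ : Function.Injective φ := by
        intro S T h
        exact Subtype.ext (congrArg (fun u : 𝓑 => (u : Finset α)) h)
      exact hli.comp φ hφ
    have hkey := card_add_card_le j (𝓑.filter (fun S => j ∉ S)) hNli
      (fun S hS => (Finset.mem_filter.mp hS).2) T hai' hTj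
      (fun k S hS => hone k S (hN hS) (Finset.mem_filter.mp hS).2)
    have hsplit : (𝓑.filter (fun S => j ∈ S)).card + (𝓑.filter (fun S => j ∉ S)).card
        = 𝓑.card := Finset.card_filter_add_card_filter_not (fun S => j ∈ S)
    have hrS0 : r ≤ S0.card := hr S0 (h𝓑 S0 hS0).1
    omega
  have hsum : (∑ S ∈ 𝓑, ∑ i ∈ S, x i) = (𝓑.card : ℝ) := by
    rw [Finset.sum_congr rfl fun S hS => (h𝓑 S hS).2]
    simp
  have hswap : (∑ S ∈ 𝓑, ∑ i ∈ S, x i) = ∑ i, ((𝓑.filter (fun S => i ∈ S)).card : ℝ) * x i := by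
    have : ∀ S ∈ 𝓑, ∑ i ∈ S, x i = ∑ i, if i ∈ S then x i else 0 := by
      intro S _
      rw [Finset.sum_ite_mem, Finset.univ_inter]
    rw [Finset.sum_congr rfl this, Finset.sum_comm]
    refine Finset.sum_congr rfl fun i _ => ?_
    rw [← Finset.sum_filter, Finset.sum_const, nsmul_eq_mul]
  rw [← hcard𝓑, ← hsum, hswap, Finset.mul_sum]
  refine Finset.sum_le_sum fun i _ => ?_
  have := hdeg i
  have h1 : (r : ℝ) ≤ ((𝓑.filter (fun S => i ∈ S)).card : ℝ) := by exact_mod_cast this
  exact mul_le_mul_of_nonneg_right h1 (hpos i).le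

end Pool.Agent.H8.PP
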